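import Pool.Agent.Ntp.Defs

/-!
# Conjugation and Dyson's map
-/

set_option autoImplicit false

namespace Ntp

open Finset

-- BEGIN con
private def con_N (m : Multiset ℕ) (j : ℕ) : ℕ := m.countP (fun a => j < a)

private def con_cj (m : Multiset ℕ) : Multiset ℕ := (Multiset.range m.sup).map (con_N m)

private theorem con_sum (S : ℕ) (m : Multiset ℕ) (h : ∀ a ∈ m, a ≤ S) :
    ∑ j ∈ Finset.range S, con_N m j = m.sum := by
  induction m using Multiset.induction_on with
  | empty => simp [con_N]
  | cons a m ih =>
    have h1 : ∀ j, con_N (a ::ₘ m) j = con_N m j + if j < a then 1 else 0 := by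
      intro j
      simp only [con_N, Multiset.countP_cons]
    simp only [h1]
    rw [Finset.sum_add_distrib, ih (fun b hb => h b (Multiset.mem_cons_of_mem hb)), Multiset.sum_cons,
      Finset.sum_boole]
    have h2 : (Finset.range S).filter (fun j => j < a) = Finset.range a := by
      ext j
      simp only [Finset.mem_filter, Finset.mem_range]
      have := h a (Multiset.mem_cons_self a m)
      omega
    rw [h2, Finset.card_range, Nat.cast_id, add_comm]

private theorem con_pos {m : Multiset ℕ} {i : ℕ} (h : i ∈ con_cj m) : 0 < i := by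
  obtain ⟨j, hj, rfl⟩ := Multiset.mem_map.1 h
  rw [Multiset.mem_range] at hj
  unfold con_N
  rw [Multiset.countP_pos]
  by_contra hc
  push Not at hc
  have := Multiset.sup_le.2 hc
  omega

private theorem con_card (m : Multiset ℕ) : (con_cj m).card = m.sup := by
  simp [con_cj]

private theorem con_sup (m : Multiset ℕ) (h : ∀ a ∈ m, 0 < a) : (con_cj m).sup = m.card := by
  apply le_antisymm
  · refine Multiset.sup_le.2 fun i hi => ?_
    obtain ⟨j, _, rfl⟩ := Multiset.mem_map.1 hi
    exact Multiset.countP_le_card _ _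
  · rcases Multiset.empty_or_exists_mem m with rfl | ⟨a, ha⟩
    · simp
    · have h0 : con_N m 0 = m.card := Multiset.countP_eq_card.2 h
      rw [← h0]
      refine Multiset.le_sup (Multiset.mem_map.2 ⟨0, ?_, rfl⟩)
      rw [Multiset.mem_range]
      exact (h a ha).trans_le (Multiset.le_sup ha)

private theorem con_succ (m : Multiset ℕ) (b : ℕ) : con_N m b = m.count (b + 1) + con_N m (b + 1) := by
  induction m using Multiset.induction_on with
  | empty => simp [con_N]
  | cons a m ih =>
    unfold con_N at ih ⊢
    rw [Multiset.countP_cons, Multiset.countP_cons, Multiset.count_cons, ih]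
    split_ifs <;> omega

private theorem con_inj {m m' : Multiset ℕ} (h : ∀ a ∈ m, 0 < a) (h' : ∀ a ∈ m', 0 < a)
    (he : con_cj m = con_cj m') : m = m' := by
  have hS : m.sup = m'.sup := by rw [← con_card, ← con_card, he]
  have hanti : ∀ m : Multiset ℕ, ∀ i j, i ≤ j → con_N m j ≤ con_N m i := by
    intro m i j hij
    unfold con_N
    induction m using Multiset.induction_on with
    | empty => simp
    | cons a m ih =>
      rw [Multiset.countP_cons, Multiset.countP_cons]
      split_ifs <;> omega
  have hL : ∀ m : Multiset ℕ, ((List.range m.sup).map (con_N m)).Pairwise (· ≥ ·) := by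
    intro m
    rw [List.pairwise_map]
    exact List.pairwise_lt_range.imp fun {i j} hij => hanti m i j hij.le
  have hl : (List.range m.sup).map (con_N m) = (List.range m'.sup).map (con_N m') := by
    have hp : ((List.range m.sup).map (con_N m)).Perm ((List.range m'.sup).map (con_N m')) := by
      rw [← Multiset.coe_eq_coe]
      exact he
    exact List.Perm.eq_of_pairwise' (hL m) (hL m') hp
  have hN : ∀ j, con_N m j = con_N m' j := by
    intro j
    by_cases hj : j < m.sup
    · have h1 := congrArg (fun l : List ℕ => l[j]?) hl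
      have hj' : j < m'.sup := hS ▸ hj
      simpa [hj, hj'] using h1
    · have hz : ∀ m : Multiset ℕ, ¬ j < m.sup → con_N m j = 0 := by
        intro m hm
        unfold con_N
        rw [Multiset.countP_eq_zero]
        intro a ha hja
        exact hm (hja.trans_le (Multiset.le_sup ha))
      rw [hz m hj, hz m' (hS ▸ hj)]
  ext a
  rcases a with _ | b
  · rw [Multiset.count_eq_zero.2 fun h0 => lt_irrefl _ (h 0 h0),
      Multiset.count_eq_zero.2 fun h0 => lt_irrefl _ (h' 0 h0)]
  · have h1 := con_succ m b
    have h2 := con_succ m' b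
    rw [hN, hN] at h1
    omega

/-- CONJUGATION of partitions exchanges the number of parts and the largest part. E.g. send the multiset `m = π.parts` to
`(Multiset.range m.sup).map fun j => (m.filter (j < ·)).card` (column `j` of the diagram); it has `m.sup` elements, all positive, the
largest is `m.card` (`j = 0`), the sum is `m.sum` (double counting); it is its own inverse (or only injective, then bijective, as the
type is finite: `#{i : m_i > j}` for all `j` determines `m`). Or through `YoungDiagram.transpose`. Any proof. `n = 0` is fine. -/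
theorem con (n : ℕ) : ∃ e : n.Partition ≃ n.Partition,
    ∀ π, (e π).parts.card = π.parts.sup ∧ (e π).parts.sup = π.parts.card := by
  let f : n.Partition → n.Partition := fun π =>
    { parts := con_cj π.parts
      parts_pos := fun {i} hi => con_pos hi
      parts_sum := (con_sum π.parts.sup π.parts fun a ha => Multiset.le_sup ha).trans π.parts_sum }
  have hf : Function.Injective f := by
    intro π π' h
    have h1 : con_cj π.parts = con_cj π'.parts := congrArg Nat.Partition.parts h
    exact Nat.Partition.ext (con_inj (fun a ha => π.parts_pos ha) (fun a ha => π'.parts_pos ha) h1)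
  refine ⟨Equiv.ofBijective f (Finite.injective_iff_bijective.1 hf), fun π => ⟨con_card π.parts, ?_⟩⟩
  exact con_sup π.parts fun a ha => π.parts_pos ha
-- END con

-- BEGIN dys_a
/-- the multiset map -/
private def dys_a_m (r : ℕ) (s : Multiset ℕ) : Multiset ℕ :=
  (s.erase s.sup).map (· + 1) + Multiset.replicate (s.sup - r - 1 - (s.erase s.sup).card) 1

private theorem dys_a_mem (s : Multiset ℕ) (h : s ≠ 0) : s.sup ∈ s := by
  induction s using Multiset.induction with
  | empty => exact absurd rfl h
  | cons a t ih =>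
    by_cases ht : t = 0
    · subst ht; simp
    · have := ih ht
      rw [Multiset.sup_cons]
      rcases le_total a t.sup with h1 | h1
      · rw [sup_eq_right.2 h1]; exact Multiset.mem_cons_of_mem this
      · rw [sup_eq_left.2 h1]; exact Multiset.mem_cons_self _ _

private theorem dys_a_card (r : ℕ) (s : Multiset ℕ) (h : s ≠ 0) (hr : s.card + r ≤ s.sup) :
    (dys_a_m r s).card = s.sup - r - 1 := by
  have h1 := Multiset.card_erase_of_mem (dys_a_mem s h)
  have h2 : 0 < s.card := Multiset.card_pos.2 h
  unfold dys_a_m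
  rw [Multiset.card_add, Multiset.card_map, Multiset.card_replicate, h1, Nat.pred_eq_sub_one]
  omega

private theorem dys_a_inv (s : Multiset ℕ) (k : ℕ) (hs : ∀ i ∈ s, 0 < i) :
    ((s.map (· + 1) + Multiset.replicate k 1).map (· - 1)).filter (0 < ·) = s := by
  rw [Multiset.map_add, Multiset.map_replicate, Multiset.map_map, Multiset.filter_add]
  have h1 : s.map ((· - 1) ∘ (· + 1)) = s := by
    conv_rhs => rw [← Multiset.map_id s]
    apply Multiset.map_congr rfl
    intro i _
    simp
  rw [h1, Multiset.filter_eq_self.2 hs]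
  have h2 : Multiset.filter (0 < ·) (Multiset.replicate k (1 - 1)) = 0 := by
    rw [Multiset.filter_eq_nil]
    intro i hi
    have := Multiset.eq_of_mem_replicate hi
    omega
  rw [h2, add_zero]

/-- DYSON'S MAP, first half: from the partitions of `N` with rank `≥ r` into the partitions of `N - r - 1` with rank `≤ r + 2`,
injective. Let `L = π.parts.sup` (a part, as `N ≥ 1`), `m = π.parts.erase L`, `q = L - r - 1 ≥ card m` (this is rank `≥ r`); the image has
the parts `m.map (· + 1) + Multiset.replicate (q - card m) 1`: sum `(N - L) + card m + (q - card m) = N - r - 1`, number of parts `q`,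
largest part `≤ L + 1 = q + r + 2`. Injective: `q` is the number of parts of the image, so `L` is known; the ones give nothing (subtract `1`
everywhere and drop the zeros: `m`). -/
theorem dys_a (N r : ℕ) (h : r + 1 ≤ N) :
    G N r ≤ (univ.filter fun π : (N - r - 1).Partition => rk π ≤ r + 2).card := by
  have key : ∀ π : N.Partition, (r : ℤ) ≤ rk π → ∃ σ : (N - r - 1).Partition,
      σ.parts = dys_a_m r π.parts ∧ rk σ ≤ r + 2 := by
    intro π hπ
    have hne : π.parts ≠ 0 := by
      intro h0
      have := π.parts_sum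
      rw [h0] at this
      simp at this
      omega
    have hm := dys_a_mem _ hne
    have hc : 0 < π.parts.card := Multiset.card_pos.2 hne
    have hr : π.parts.card + r ≤ π.parts.sup := by
      unfold rk at hπ
      omega
    have h1 := Multiset.card_erase_of_mem hm
    have hcard := dys_a_card r π.parts hne hr
    have hsum : (dys_a_m r π.parts).sum = N - r - 1 := by
      have h3 : π.parts.sup + (π.parts.erase π.parts.sup).sum = N := by
        rw [← Multiset.sum_cons, Multiset.cons_erase hm, π.parts_sum]
      unfold dys_a_m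
      rw [Multiset.sum_add, Multiset.sum_map_add, Multiset.sum_replicate, Multiset.map_id',
        Multiset.map_const', Multiset.sum_replicate, h1, Nat.pred_eq_sub_one, smul_eq_mul, smul_eq_mul]
      omega
    refine ⟨⟨dys_a_m r π.parts, ?_, hsum⟩, rfl, ?_⟩
    · intro i hi
      unfold dys_a_m at hi
      rw [Multiset.mem_add] at hi
      rcases hi with hi | hi
      · obtain ⟨j, _, rfl⟩ := Multiset.mem_map.1 hi
        omega
      · rw [Multiset.eq_of_mem_replicate hi]; omega
    · unfold rk
      show (((dys_a_m r π.parts).sup : ℕ) : ℤ) - (((dys_a_m r π.parts).card : ℕ) : ℤ) ≤ _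
      have hle : (dys_a_m r π.parts).sup ≤ π.parts.sup + 1 := by
        rw [Multiset.sup_le]
        intro i hi
        unfold dys_a_m at hi
        rw [Multiset.mem_add] at hi
        rcases hi with hi | hi
        · obtain ⟨j, hj, rfl⟩ := Multiset.mem_map.1 hi
          have := Multiset.le_sup (Multiset.mem_of_mem_erase hj)
          show j + 1 ≤ _
          omega
        · rw [Multiset.eq_of_mem_replicate hi]; omega
      rw [hcard]
      omega
  choose! f hf using key
  unfold G
  apply Finset.card_le_card_of_injOn f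
  · intro π hπ
    simp only [coe_filter, mem_univ, true_and, Set.mem_ofPred_eq] at hπ ⊢
    exact (hf π hπ).2
  · intro π hπ π' hπ' he
    simp only [coe_filter, mem_univ, true_and, Set.mem_ofPred_eq] at hπ hπ'
    have e1 := (hf π hπ).1
    have e2 := (hf π' hπ').1
    rw [he, e2] at e1
    have aux : ∀ ρ : N.Partition, (r : ℤ) ≤ rk ρ → ρ.parts ≠ 0 ∧ ρ.parts.card + r ≤ ρ.parts.sup := by
      intro ρ hρ
      have hne : ρ.parts ≠ 0 := by
        intro h0
        have := ρ.parts_sum
        rw [h0] at this
        simp at this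
        omega
      refine ⟨hne, ?_⟩
      unfold rk at hρ
      omega
    obtain ⟨n1, r1⟩ := aux π hπ
    obtain ⟨n2, r2⟩ := aux π' hπ'
    have c1 := dys_a_card r π.parts n1 r1
    have c2 := dys_a_card r π'.parts n2 r2
    rw [← e1] at c1
    have p1 : 0 < π.parts.card := Multiset.card_pos.2 n1
    have p2 : 0 < π'.parts.card := Multiset.card_pos.2 n2
    have hs : π.parts.sup = π'.parts.sup := by omega
    have i1 := dys_a_inv (π.parts.erase π.parts.sup) (π.parts.sup - r - 1 - (π.parts.erase π.parts.sup).card)
      (fun i hi => π.parts_pos (Multiset.mem_of_mem_erase hi))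
    have i2 := dys_a_inv (π'.parts.erase π'.parts.sup) (π'.parts.sup - r - 1 - (π'.parts.erase π'.parts.sup).card)
      (fun i hi => π'.parts_pos (Multiset.mem_of_mem_erase hi))
    have e3 : π.parts.erase π.parts.sup = π'.parts.erase π'.parts.sup := by
      rw [← i1, ← i2]
      change _ = Multiset.filter _ (Multiset.map _ (dys_a_m r π'.parts))
      rw [e1]
      rfl
    apply Nat.Partition.ext
    rw [← Multiset.cons_erase (dys_a_mem _ n1), ← Multiset.cons_erase (dys_a_mem _ n2), e3, hs]
-- END dys_a

-- BEGIN dys_b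
/-- the inverse multiset map -/
private def dys_b_m (r : ℕ) (s : Multiset ℕ) : Multiset ℕ :=
  (s.card + r + 1) ::ₘ ((s.map (· - 1)).filter (0 < ·))

private theorem dys_b_sum (s : Multiset ℕ) (hs : ∀ i ∈ s, 0 < i) :
    ((s.map (· - 1)).filter (0 < ·)).sum + s.card = s.sum := by
  induction s using Multiset.induction with
  | empty => simp
  | cons a t ih =>
    have h1 := ih (fun i hi => hs i (Multiset.mem_cons_of_mem hi))
    have h2 := hs a (Multiset.mem_cons_self _ _)
    rw [Multiset.map_cons, Multiset.card_cons, Multiset.sum_cons]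
    by_cases h3 : 0 < a - 1
    · rw [Multiset.filter_cons_of_pos (s := t.map (· - 1)) (p := (0 < ·)) h3, Multiset.sum_cons]
      omega
    · rw [Multiset.filter_cons_of_neg (s := t.map (· - 1)) (p := (0 < ·)) h3]
      omega

private theorem dys_b_inv (s : Multiset ℕ) (hs : ∀ i ∈ s, 0 < i) :
    ((s.map (· - 1)).filter (0 < ·)).card ≤ s.card ∧
    ((s.map (· - 1)).filter (0 < ·)).map (· + 1) +
      Multiset.replicate (s.card - ((s.map (· - 1)).filter (0 < ·)).card) 1 = s := by
  induction s using Multiset.induction with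
  | empty => simp
  | cons a t ih =>
    obtain ⟨h0, h1⟩ := ih (fun i hi => hs i (Multiset.mem_cons_of_mem hi))
    have h2 := hs a (Multiset.mem_cons_self _ _)
    rw [Multiset.map_cons, Multiset.card_cons]
    by_cases h3 : 0 < a - 1
    · rw [Multiset.filter_cons_of_pos (s := t.map (· - 1)) (p := (0 < ·)) h3, Multiset.card_cons, Multiset.map_cons,
        Nat.add_sub_add_right, Multiset.cons_add, h1]
      refine ⟨by omega, ?_⟩
      congr 1
      omega
    · rw [Multiset.filter_cons_of_neg (s := t.map (· - 1)) (p := (0 < ·)) h3]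
      refine ⟨by omega, ?_⟩
      have h4 : a = 1 := by omega
      rw [Nat.sub_add_comm h0, Multiset.replicate_succ, Multiset.add_cons, h1, h4]

private theorem dys_b_sup (s : Multiset ℕ) (r : ℕ) (hs : s.sup ≤ s.card + r + 2) :
    (dys_b_m r s).sup = s.card + r + 1 := by
  unfold dys_b_m
  rw [Multiset.sup_cons]
  apply sup_eq_left.2
  rw [Multiset.sup_le]
  intro i hi
  obtain ⟨j, hj, rfl⟩ := Multiset.mem_map.1 (Multiset.mem_of_mem_filter hi)
  have := Multiset.le_sup hj
  show j - 1 ≤ _
  omega

/-- DYSON'S MAP, second half (the inverse is injective): from the partitions `σ` of `N - r - 1` with rank `≤ r + 2` to those of `N` with rank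
`≥ r`: with `l = card σ.parts` the parts are `(l + r + 1) ::ₘ ((σ.parts.map (· - 1)).filter (0 < ·))`: sum `l + r + 1 + (N - r - 1) - l = N`;
all other parts are `≤ sup σ - 1 ≤ l + r + 1`, there are at most `l` of them, so the rank is `≥ (l + r + 1) - (l + 1) = r`. Injective: the largest part
of the image is `l + r + 1`, so `l` is known, and `σ.parts` is (rest).map (· + 1) and `l - card rest` ones. -/
theorem dys_b (N r : ℕ) (h : r + 1 ≤ N) :
    (univ.filter fun π : (N - r - 1).Partition => rk π ≤ r + 2).card ≤ G N r := by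
  have key : ∀ σ : (N - r - 1).Partition, rk σ ≤ r + 2 → ∃ π : N.Partition,
      π.parts = dys_b_m r σ.parts ∧ (r : ℤ) ≤ rk π := by
    intro σ hσ
    have hr : σ.parts.sup ≤ σ.parts.card + r + 2 := by
      unfold rk at hσ
      omega
    have hsum : (dys_b_m r σ.parts).sum = N := by
      have h1 := dys_b_sum σ.parts (fun i hi => σ.parts_pos hi)
      rw [σ.parts_sum] at h1
      unfold dys_b_m
      rw [Multiset.sum_cons]
      omega
    refine ⟨⟨dys_b_m r σ.parts, ?_, hsum⟩, rfl, ?_⟩
    · intro i hi
      unfold dys_b_m at hi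
      rcases Multiset.mem_cons.1 hi with hi | hi
      · omega
      · exact (Multiset.mem_filter.1 hi).2
    · unfold rk
      show _ ≤ (((dys_b_m r σ.parts).sup : ℕ) : ℤ) - (((dys_b_m r σ.parts).card : ℕ) : ℤ)
      rw [dys_b_sup _ _ hr]
      have h2 := (dys_b_inv σ.parts (fun i hi => σ.parts_pos hi)).1
      unfold dys_b_m
      rw [Multiset.card_cons]
      omega
  choose! f hf using key
  have : Nonempty N.Partition := ⟨Nat.Partition.indiscrete N⟩
  unfold G
  apply Finset.card_le_card_of_injOn f
  · intro σ hσ
    simp only [coe_filter, mem_univ, true_and, Set.mem_ofPred_eq] at hσ ⊢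
    exact (hf σ hσ).2
  · intro σ hσ σ' hσ' he
    simp only [coe_filter, mem_univ, true_and, Set.mem_ofPred_eq] at hσ hσ'
    have e1 := (hf σ hσ).1
    have e2 := (hf σ' hσ').1
    rw [he, e2] at e1
    have r1 : σ.parts.sup ≤ σ.parts.card + r + 2 := by
      unfold rk at hσ
      omega
    have r2 : σ'.parts.sup ≤ σ'.parts.card + r + 2 := by
      unfold rk at hσ'
      omega
    have s1 := dys_b_sup _ _ r1
    have s2 := dys_b_sup _ _ r2
    rw [← e1, s2] at s1
    have hc : σ.parts.card = σ'.parts.card := by omega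
    unfold dys_b_m at e1
    rw [hc, Multiset.cons_inj_right] at e1
    have i1 := (dys_b_inv σ.parts (fun i hi => σ.parts_pos hi)).2
    have i2 := (dys_b_inv σ'.parts (fun i hi => σ'.parts_pos hi)).2
    apply Nat.Partition.ext
    rw [← i1, ← i2, hc, e1]
-- END dys_b

-- BEGIN G_zero
/-- rank `≤ N - 1` for `N ≥ 1` (the sup is `≤ N`, there is a part); for `N = 0` the rank is `0 < r`. -/
theorem G_zero (N r : ℕ) (hr : 1 ≤ r) (h : N ≤ r) : G N r = 0 := by
  unfold G
  rw [Finset.card_eq_zero, Finset.filter_eq_empty_iff]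
  intro π _ hπ
  unfold rk at hπ
  have h1 : π.parts.sup ≤ N := by
    rw [Multiset.sup_le]
    intro i hi
    rw [← π.parts_sum]
    exact Multiset.single_le_sum (fun _ _ => Nat.zero_le _) _ hi
  have h2 : π.parts.card = 0 := by omega
  rw [Multiset.card_eq_zero] at h2
  rw [h2] at hπ
  simp at hπ
  omega
-- END G_zero

-- BEGIN G_rec
/-- `dys_a`, `dys_b` and the complement: `rk ≤ r + 2` iff not `r + 3 ≤ rk`. -/
theorem G_rec (N r : ℕ) (h : r + 1 ≤ N) : G N r + G (N - r - 1) (r + 3 : ℕ) = pp (N - r - 1) := by
  rw [le_antisymm (dys_a N r h) (dys_b N r h), G, pp, ← Finset.card_univ]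
  have h1 : (univ.filter fun π : (N - r - 1).Partition => ((r + 3 : ℕ) : ℤ) ≤ rk π) =
      univ.filter fun π : (N - r - 1).Partition => ¬ rk π ≤ r + 2 := by
    refine Finset.filter_congr fun π _ => ?_
    push_cast
    omega
  rw [h1]
  exact Finset.card_filter_add_card_filter_not _
-- END G_rec

-- BEGIN pe_succ
/-- `pe (k + 1) r = r + 1 + pe k (r + 3)` (for `k = 0` too; the division by `2` is exact). -/
theorem pe_succ (k r : ℕ) : pe (k + 1) r = r + 1 + pe k (r + 3) := by
  have h : ∀ k : ℕ, 2 * (k * (3 * k - 1) / 2) = k * (3 * k - 1) := by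
    intro k
    apply Nat.mul_div_cancel'
    rcases Nat.even_or_odd k with ⟨m, hm⟩ | ⟨m, hm⟩
    · exact Dvd.dvd.mul_right ⟨m, by omega⟩ _
    · exact Dvd.dvd.mul_left ⟨3 * m + 1, by omega⟩ _
  have h1 := h k
  have h2 := h (k + 1)
  unfold pe
  rcases Nat.eq_zero_or_pos k with rfl | hk
  · simp; omega
  · obtain ⟨m, rfl⟩ : ∃ m, k = m + 1 := ⟨k - 1, by omega⟩
    have e1 : 3 * (m + 1) - 1 = 3 * m + 2 := by omega
    have e2 : 3 * (m + 1 + 1) - 1 = 3 * m + 5 := by omega
    rw [e1] at h1 ⊢
    rw [e2] at h2 ⊢
    nlinarith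
-- END pe_succ

-- BEGIN pe_ge
/-- `k ^ 2 ≤ pe k r` -/
theorem pe_ge (k r : ℕ) : k ^ 2 ≤ pe k r := by
  unfold pe
  have h : k ^ 2 ≤ k * (3 * k - 1) / 2 := by
    rw [Nat.le_div_iff_mul_le (by norm_num)]
    rcases Nat.eq_zero_or_pos k with rfl | hk
    · simp
    · obtain ⟨m, rfl⟩ : ∃ m, k = m + 1 := ⟨k - 1, by omega⟩
      have e1 : 3 * (m + 1) - 1 = 3 * m + 2 := by omega
      rw [e1]
      nlinarith
  exact h.trans (Nat.le_add_right _ _)
-- END pe_ge

-- BEGIN G_sum
/-- Strong induction on `N` with `G_rec` (in `ZMod 2` addition is subtraction), `G_zero`, `pe_succ`: the term `k = 0` is `pp (N - r - 1)`, the terms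
`k + 1` are the terms `k` of `G (N - r - 1) (r + 3)`. For `N ≤ r` (then `1 ≤ r`): all `pe (k + 1) r ≥ r + 1 > N`. The length `N` of the range does not matter:
terms with `k + 1 > N` vanish since `pe (k + 1) r ≥ (k + 1) ^ 2`. -/
theorem G_sum (N r : ℕ) (h : 1 ≤ r ∨ 1 ≤ N) : (G N r : ZMod 2) =
    ∑ k ∈ range N, if pe (k + 1) r ≤ N then (pp (N - pe (k + 1) r) : ZMod 2) else 0 := by
  have hbig : ∀ N r k : ℕ, N ≤ k → ¬ pe (k + 1) r ≤ N := by
    intro N r k hk hle
    have h1 := pe_ge (k + 1) r
    have h2 : k + 1 ≤ (k + 1) ^ 2 := Nat.le_self_pow (by norm_num) _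
    omega
  have hrng : ∀ N r m : ℕ, N ≤ m →
      ∑ k ∈ range m, (if pe (k + 1) r ≤ N then (pp (N - pe (k + 1) r) : ZMod 2) else 0) =
      ∑ k ∈ range N, (if pe (k + 1) r ≤ N then (pp (N - pe (k + 1) r) : ZMod 2) else 0) := by
    intro N r m hm
    symm
    refine Finset.sum_subset (Finset.range_mono hm) fun k _ hk => ?_
    rw [Finset.mem_range, not_lt] at hk
    exact if_neg (hbig N r k hk)
  induction N using Nat.strong_induction_on generalizing r with
  | _ N ih =>
    rcases Nat.lt_or_ge r N with hlt | hge
    · have hrec := G_rec N r hlt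
      have h3 : ((r : ℤ) + 3) = ((r + 3 : ℕ) : ℤ) := by push_cast; ring
      have hadd : (G N r : ZMod 2) = (pp (N - r - 1) : ZMod 2) + (G (N - r - 1) (r + 3 : ℕ) : ZMod 2) := by
        rw [← hrec]
        push_cast
        have h2 : (2 : ZMod 2) = 0 := by decide
        linear_combination (-(G (N - r - 1) ((r : ℤ) + 3) : ZMod 2)) * h2
      rw [hadd, ih (N - r - 1) (by omega) (r + 3) (Or.inl (by omega))]
      obtain ⟨M, rfl⟩ : ∃ M, N = M + 1 := ⟨N - 1, by omega⟩
      rw [Finset.sum_range_succ']
      have h0 : pe (0 + 1) r = r + 1 := by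
        rw [pe_succ]; simp [pe]
      rw [h0, if_pos (by omega), show M + 1 - (r + 1) = M + 1 - r - 1 by omega, add_comm]
      congr 1
      rw [← hrng (M + 1 - r - 1) (r + 3) M (by omega)]
      refine Finset.sum_congr rfl fun k _ => ?_
      rw [pe_succ (k + 1) r]
      by_cases hc : pe (k + 1) (r + 3) ≤ M + 1 - r - 1
      · rw [if_pos hc, if_pos (by omega)]
        congr 2
        omega
      · rw [if_neg hc, if_neg (by omega)]
    · have hr : 1 ≤ r := by omega
      rw [G_zero N r hr hge, Nat.cast_zero]
      symm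
      refine Finset.sum_eq_zero fun k _ => if_neg ?_
      rw [pe_succ]
      omega
-- END G_sum

-- BEGIN rk_sym
/-- From `con`: the numbers of partitions with rank `m` and with rank `-m` agree. -/
theorem rk_sym (N : ℕ) (m : ℤ) : (univ.filter fun π : N.Partition => rk π = m).card =
    (univ.filter fun π : N.Partition => rk π = -m).card := by
  obtain ⟨e, he⟩ := con N
  have hrk : ∀ π : N.Partition, rk (e π) = -rk π := by
    intro π
    obtain ⟨h1, h2⟩ := he π
    unfold rk
    rw [h1, h2]
    ring
  refine Finset.card_bij (fun π _ => e π) ?_ ?_ ?_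
  · intro π hπ
    rw [Finset.mem_filter] at hπ ⊢
    exact ⟨Finset.mem_univ _, by rw [hrk, hπ.2]⟩
  · intro a _ b _ hab
    exact e.injective hab
  · intro σ hσ
    rw [Finset.mem_filter] at hσ
    refine ⟨e.symm σ, ?_, e.apply_symm_apply σ⟩
    rw [Finset.mem_filter]
    refine ⟨Finset.mem_univ _, ?_⟩
    have h := hrk (e.symm σ)
    rw [e.apply_symm_apply, hσ.2] at h
    linarith
-- END rk_sym

-- BEGIN G_one
/-- `pp N = G N 0 + G N 1`: the partitions of rank `≤ -1` are as many as those of rank `≥ 1` (`con`). -/
theorem G_one (N : ℕ) : pp N = G N 0 + G N 1 := by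
  obtain ⟨e, he⟩ := con N
  have hrk : ∀ π : N.Partition, rk (e π) = - rk π := by
    intro π
    have h := he π
    unfold rk
    rw [h.1, h.2]
    ring
  have h1 : G N 1 = (univ.filter fun π : N.Partition => ¬ (0 ≤ rk π)).card := by
    unfold G
    refine Finset.card_bij (fun π _ => e π) ?_ ?_ ?_
    · intro π hπ
      rw [mem_filter] at hπ ⊢
      refine ⟨mem_univ _, ?_⟩
      rw [hrk]
      have := hπ.2
      omega
    · intro a _ b _ h
      exact e.injective h
    · intro b hb
      rw [mem_filter] at hb
      refine ⟨e.symm b, ?_, e.apply_symm_apply b⟩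
      rw [mem_filter]
      refine ⟨mem_univ _, ?_⟩
      have h2 := hrk (e.symm b)
      rw [e.apply_symm_apply] at h2
      have := hb.2
      omega
  rw [h1]
  unfold G pp
  rw [Finset.card_filter_add_card_filter_not]
  rfl
-- END G_one

-- BEGIN G_diff
/-- rank `≥ m` is rank `= m` or rank `≥ m + 1`. -/
theorem G_diff (N : ℕ) (m : ℤ) : G N m = (univ.filter fun π : N.Partition => rk π = m).card + G N (m + 1) := by
  unfold G
  rw [← Finset.card_union_of_disjoint]
  · congr 1
    ext π
    simp only [Finset.mem_filter, Finset.mem_univ, true_and, Finset.mem_union]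
    omega
  · rw [Finset.disjoint_left]
    intro π h1 h2
    simp only [Finset.mem_filter, Finset.mem_univ, true_and] at h1 h2
    omega
-- END G_diff

-- BEGIN nt_par
/-- For odd `r`: the bijection of `con` maps the partitions with rank `-r` mod `5` to those of rank `r` mod `5` and the number of parts to the largest part, so
`NT r 5 n + NT (-r) 5 n` is the sum of (number of parts + largest part) over rank `r` mod `5`, and this is `rk π` mod `2`: it counts the `π` with `rk π` odd
and `rk π = r` mod `5`, i.e. `rk π = r` mod `10` (as `r` is odd). -/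
theorem nt_par (n : ℕ) (r : ℤ) (hr : r % 2 = 1) : ((NT r 5 n : ℕ) : ZMod 2) + ((NT (-r) 5 n : ℕ) : ZMod 2) = (F r n : ZMod 2) := by
  classical
  obtain ⟨e, he⟩ := con n
  have hrk : ∀ π : n.Partition, rk (e π) = - rk π := by
    intro π
    unfold rk
    rw [(he π).1, (he π).2]
    ring
  have h1 : NT (-r) 5 n = ∑ π : n.Partition with rk π ≡ r [ZMOD 5], π.parts.sup := by
    unfold NT
    symm
    refine Finset.sum_equiv e ?_ ?_
    · intro π
      simp only [Finset.mem_filter, Finset.mem_univ, true_and]
      rw [hrk π]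
      constructor
      · intro g
        exact g.neg
      · intro g
        have := g.neg
        rwa [neg_neg, neg_neg] at this
    · intro π _
      exact (he π).1.symm
  rw [h1]
  unfold NT F
  rw [Nat.cast_sum, Nat.cast_sum]
  have h2 : ∀ s : Finset n.Partition, (∑ π ∈ s, ((π.parts.card : ℕ) : ZMod 2)) + (∑ π ∈ s, ((π.parts.sup : ℕ) : ZMod 2)) =
      ((s.filter fun π => rk π % 2 = 1).card : ZMod 2) := by
    intro s
    rw [← Finset.sum_add_distrib, Finset.card_filter, Nat.cast_sum]
    refine Finset.sum_congr rfl fun π _ => ?_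
    have h3 : ((π.parts.card : ℕ) : ZMod 2) + ((π.parts.sup : ℕ) : ZMod 2) = ((rk π : ℤ) : ZMod 2) := by
      unfold rk
      push_cast
      have h4 : ∀ a b : ZMod 2, a + b = b - a := by decide
      exact h4 _ _
    rw [h3]
    by_cases h5 : rk π % 2 = 1
    · rw [if_pos h5]
      have h6 : ((rk π : ℤ) : ZMod 2) = ((1 : ℤ) : ZMod 2) :=
        (ZMod.intCast_eq_intCast_iff _ _ 2).2 (by
          unfold Int.ModEq
          push_cast
          omega)
      rw [h6]
      norm_num
    · rw [if_neg h5]
      have h6 : ((rk π : ℤ) : ZMod 2) = ((0 : ℤ) : ZMod 2) :=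
        (ZMod.intCast_eq_intCast_iff _ _ 2).2 (by
          unfold Int.ModEq
          push_cast
          omega)
      rw [h6]
      norm_num
  have h7 := h2 (Finset.univ.filter fun π : n.Partition => rk π ≡ r [ZMOD ((5 : ℕ) : ℤ)])
  have h8 : ((Finset.univ.filter fun π : n.Partition => rk π ≡ r [ZMOD ((5 : ℕ) : ℤ)]).filter fun π => rk π % 2 = 1) =
      Finset.univ.filter fun π : n.Partition => rk π ≡ r [ZMOD 10] := by
    ext π
    simp only [Finset.mem_filter, Finset.mem_univ, true_and]
    unfold Int.ModEq
    push_cast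
    omega
  rw [h8] at h7
  exact h7
-- END nt_par

-- BEGIN nt_mod
/-- `NT m 5 n` depends on `m` mod `5` only. -/
theorem nt_mod (n : ℕ) (m m' : ℤ) (h : m ≡ m' [ZMOD 5]) : NT m 5 n = NT m' 5 n := by
  unfold NT
  refine Finset.sum_congr ?_ fun _ _ => rfl
  ext π
  simp only [Finset.mem_filter, Finset.mem_univ, true_and]
  exact ⟨fun g => g.trans h, fun g => g.trans h.symm⟩
-- END nt_mod

end Ntp
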