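import Mathlib

/-!
# Partitions, Dyson's rank and rank-weighted numbers of parts: definitions
-/

set_option autoImplicit false

namespace Ntp

/-- Dyson's rank: the largest part minus the number of parts. -/
def rk {n : ℕ} (π : n.Partition) : ℤ := (π.parts.sup : ℤ) - (π.parts.card : ℤ)

/-- `NT(m, j, n)`: the sum of the numbers of parts of the partitions of `n` with rank `m` mod `j`. -/
def NT (m : ℤ) (j n : ℕ) : ℕ := ∑ π : n.Partition with rk π ≡ m [ZMOD j], π.parts.card

/-- the number of partitions of `n` -/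
def pp (n : ℕ) : ℕ := Fintype.card n.Partition

/-- the number of partitions of `N` with rank at least `r` -/
def G (N : ℕ) (r : ℤ) : ℕ := (Finset.univ.filter fun π : N.Partition => r ≤ rk π).card

/-- the number of partitions of `N` with rank `r` mod `10` -/
def F (r : ℤ) (N : ℕ) : ℕ := (Finset.univ.filter fun π : N.Partition => rk π ≡ r [ZMOD 10]).card

/-- `k (3 k - 1) / 2 + k r` -/
def pe (k r : ℕ) : ℕ := k * (3 * k - 1) / 2 + k * r

/-- the number of `(k, μ)`, `k, μ ≥ 1`, with `μ mod 10 ∈ S` and `pe k μ = N` -/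
def Lc (S : Finset ℕ) (N : ℕ) : ℕ :=
  ((Finset.Icc 1 N ×ˢ Finset.Icc 1 N).filter fun x => x.2 % 10 ∈ S ∧ pe x.1 x.2 = N).card

/-- the two sets of residues: `S1` for the pair `(1, 4)`, `S3` for the pair `(2, 3)` -/
def S1 : Finset ℕ := {0, 1, 2, 9}

/-- see `S1` -/
def S3 : Finset ℕ := {3, 4, 7, 8}

/-- the number of ways to write `M` as a generalised pentagonal number -/
def ee (M : ℕ) : ℕ := (if M = 0 then 1 else 0) + ((Finset.Icc 1 M).filter fun k => pe k 0 = M).card +
  ((Finset.Icc 1 M).filter fun k => pe k 1 = M).card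

/-- a convolution over the field with two elements -/
def cv (f : ℕ → ZMod 2) (N : ℕ) : ZMod 2 := ∑ M ∈ Finset.range (N + 1), (ee M : ZMod 2) * f (N - M)

end Ntp
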