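import Pool.Agent.Ntp.Cj

/-!
# Numbers in the long gaps between generalised pentagonal numbers
-/

set_option autoImplicit false

namespace Ntp

open Finset

-- BEGIN in_int
/-- An interval `[a, a + n)` contains at least `n / 1681 - 1` numbers `≡ 41` mod `1681`. -/
theorem in_int (a n : ℕ) : (n : ℝ) / 1681 - 1 ≤ (((Ico a (a + n)).filter fun N => N % 1681 = 41).card : ℝ) := by
  obtain ⟨c, hc1, hc2⟩ : ∃ c : ℕ, c < 1681 ∧ (a + c) % 1681 = 41 :=
    ⟨(41 + 1681 - a % 1681) % 1681, by omega, by omega⟩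
  have hsub : (range (n / 1681)).image (fun j => a + c + 1681 * j) ⊆
      (Ico a (a + n)).filter fun N => N % 1681 = 41 := by
    intro N hN
    rw [mem_image] at hN
    obtain ⟨j, hj, rfl⟩ := hN
    rw [mem_range] at hj
    rw [mem_filter, mem_Ico]
    refine ⟨⟨by omega, by omega⟩, by omega⟩
  have hcard : ((range (n / 1681)).image (fun j => a + c + 1681 * j)).card = n / 1681 := by
    rw [card_image_of_injective _ (fun i j (h : a + c + 1681 * i = a + c + 1681 * j) => by omega),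
      card_range]
  have h1 := card_le_card hsub
  rw [hcard] at h1
  have h2 : n ≤ 1681 * (n / 1681) + 1681 := by omega
  have h3 : (n : ℝ) ≤ 1681 * ((n / 1681 : ℕ) : ℝ) + 1681 := by exact_mod_cast h2
  have h4 : ((n / 1681 : ℕ) : ℝ) ≤ (((Ico a (a + n)).filter fun N => N % 1681 = 41).card : ℝ) := by
    exact_mod_cast h1
  have h5 : (n : ℝ) / 1681 ≤ ((n / 1681 : ℕ) : ℝ) + 1 := by
    rw [div_le_iff₀ (by norm_num)]
    linarith
  linarith
-- END in_int

-- BEGIN cnt41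
private theorem cnt41_even (k : ℕ) : 2 ∣ k * (3 * k - 1) := by
  obtain ⟨c, rfl | rfl⟩ := Nat.even_or_odd' k
  · exact Dvd.dvd.mul_right ⟨c, rfl⟩ _
  · exact Dvd.dvd.mul_left ⟨3 * c + 1, by omega⟩ _

private theorem cnt41_pe (k r : ℕ) : 2 * pe k r = k * (3 * k - 1) + 2 * (k * r) := by
  have := Nat.mul_div_cancel' (cnt41_even k)
  unfold pe
  omega

private theorem cnt41_pe0 (k : ℕ) : 2 * pe (k + 1) 0 = 3 * k ^ 2 + 5 * k + 2 := by
  rw [cnt41_pe]
  have : 3 * (k + 1) - 1 = 3 * k + 2 := by omega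
  rw [this]; ring

private theorem cnt41_pe1 (k : ℕ) : 2 * pe k 1 = 3 * k ^ 2 + k := by
  rw [cnt41_pe]
  rcases k with _ | k
  · rfl
  · have : 3 * (k + 1) - 1 = 3 * k + 2 := by omega
    rw [this]; ring

private theorem cnt41_step (k : ℕ) : pe (k + 1) 0 = pe k 1 + (2 * k + 1) := by
  have h1 := cnt41_pe0 k
  have h2 := cnt41_pe1 k
  omega

private theorem cnt41_lt {k l : ℕ} (h : k < l) : pe (k + 1) 0 ≤ pe l 1 := by
  have h1 := cnt41_pe0 k
  have h2 := cnt41_pe1 l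
  have : (k + 1) ^ 2 ≤ l ^ 2 := Nat.pow_le_pow_left h 2
  nlinarith

open Classical in
/-- The long gaps `[pe k 1, pe (k + 1) 0)`, `k < K`, have `2 k + 1` members and are disjoint; with `K = Nat.sqrt (X / 2)` they lie in `[0, X]`
(`pe K 0 ≤ 3 / 2 K ^ 2`), so by `in_int` the number is at least `K ^ 2 / 1681 - K ≥ X / 4000` for large `X`. -/
theorem cnt41 : ∃ X₀ : ℕ, ∀ X : ℕ, X₀ ≤ X → (X : ℝ) / 4000 ≤
    (((Icc 1 X).filter fun N => N % 1681 = 41 ∧ ∃ k, pe k 1 ≤ N ∧ N < pe (k + 1) 0).card : ℝ) := by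
  refine ⟨242000000, fun X hX => ?_⟩
  obtain ⟨K, hK⟩ : ∃ K, K = Nat.sqrt (X / 2) := ⟨_, rfl⟩
  have hK1 : 11000 ≤ K := by rw [hK, Nat.le_sqrt']; omega
  have hK2 : K ^ 2 ≤ X / 2 := by rw [hK]; exact Nat.sqrt_le' _
  have hK3 : X / 2 < (K + 1) ^ 2 := by rw [hK]; exact Nat.lt_succ_sqrt' _
  have hsub : ((range K).biUnion fun k =>
      (Ico (pe k 1) (pe k 1 + (2 * k + 1))).filter fun N => N % 1681 = 41) ⊆
      (Icc 1 X).filter fun N => N % 1681 = 41 ∧ ∃ k, pe k 1 ≤ N ∧ N < pe (k + 1) 0 := by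
    intro N hN
    rw [mem_biUnion] at hN
    obtain ⟨k, hk, hN⟩ := hN
    rw [mem_range] at hk
    rw [mem_filter, mem_Ico] at hN
    rw [mem_filter, mem_Icc]
    refine ⟨⟨by omega, ?_⟩, hN.2, k, hN.1.1, by rw [cnt41_step]; exact hN.1.2⟩
    have h1 := cnt41_lt hk
    have h2 := cnt41_pe1 K
    have h3 := cnt41_step k
    have h4 : K ≤ K ^ 2 := Nat.le_self_pow (by norm_num) K
    omega
  have hdis : (range K : Set ℕ).PairwiseDisjoint fun k =>
      (Ico (pe k 1) (pe k 1 + (2 * k + 1))).filter fun N => N % 1681 = 41 := by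
    have aux : ∀ k l, k < l → Disjoint ((Ico (pe k 1) (pe k 1 + (2 * k + 1))).filter fun N => N % 1681 = 41)
        ((Ico (pe l 1) (pe l 1 + (2 * l + 1))).filter fun N => N % 1681 = 41) := by
      intro k l hkl
      rw [disjoint_left]
      intro N h1 h2
      rw [mem_filter, mem_Ico] at h1 h2
      have h3 := cnt41_lt hkl
      have h4 := cnt41_step k
      omega
    intro k _ l _ hkl
    rcases lt_or_gt_of_ne hkl with h | h
    · exact aux k l h
    · exact (aux l k h).symm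
  have hcard := card_le_card hsub
  rw [card_biUnion hdis] at hcard
  have hsum : ∑ k ∈ range K, (((2 * k + 1 : ℕ) : ℝ) / 1681 - 1) ≤
      ((∑ k ∈ range K, ((Ico (pe k 1) (pe k 1 + (2 * k + 1))).filter fun N => N % 1681 = 41).card : ℕ) : ℝ) := by
    push_cast
    refine sum_le_sum fun k _ => ?_
    have := in_int (pe k 1) (2 * k + 1)
    push_cast at this
    exact this
  have hval : ∀ n : ℕ, ∑ k ∈ range n, (((2 * k + 1 : ℕ) : ℝ) / 1681 - 1) = (n : ℝ) ^ 2 / 1681 - n := by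
    intro n
    induction n with
    | zero => simp
    | succ n ih => rw [sum_range_succ, ih]; push_cast; ring
  rw [hval] at hsum
  have hcard' : ((∑ k ∈ range K, ((Ico (pe k 1) (pe k 1 + (2 * k + 1))).filter fun N => N % 1681 = 41).card : ℕ) : ℝ) ≤
      (((Icc 1 X).filter fun N => N % 1681 = 41 ∧ ∃ k, pe k 1 ≤ N ∧ N < pe (k + 1) 0).card : ℝ) := by
    exact_mod_cast hcard
  refine le_trans ?_ (hsum.trans hcard')
  have hX' : X ≤ 2 * (K + 1) ^ 2 := by omega
  have hXr : (X : ℝ) ≤ 2 * ((K : ℝ) + 1) ^ 2 := by exact_mod_cast hX'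
  have hKr : (11000 : ℝ) ≤ K := by exact_mod_cast hK1
  nlinarith [mul_le_mul hKr hKr (by norm_num) (by linarith : (0 : ℝ) ≤ K)]
-- END cnt41

end Ntp
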