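import Mathlib

/-!
# Few integers have a divisor near the square root, and other counts (Mathlib only)
-/

set_option autoImplicit false

namespace Ntp

open Finset

/-- the number of `p ∈ P` which divide `n` -/
def om (P : Finset ℕ) (n : ℕ) : ℕ := (P.filter fun p => p ∣ n).card

/-- the number of `p ∈ P` whose square divides `n` -/
def om2 (P : Finset ℕ) (n : ℕ) : ℕ := (P.filter fun p => p ^ 2 ∣ n).card

/-- the sum of the reciprocals -/
noncomputable def EP (P : Finset ℕ) : ℝ := ∑ p ∈ P, 1 / (p : ℝ)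

-- BEGIN om_sum
/-- `∑_{n ≤ Y} om P n = ∑_{p ∈ P} ⌊Y / p⌋ ≥ Y E - #P`. -/
theorem om_sum (P : Finset ℕ) (hP : ∀ p ∈ P, p.Prime) (Y : ℕ) :
    (Y : ℝ) * EP P - P.card ≤ ∑ n ∈ Icc 1 Y, (om P n : ℝ) := by
  have h1 : ∑ n ∈ Icc 1 Y, om P n = ∑ p ∈ P, Y / p := by
    unfold om
    simp only [Finset.card_filter]
    rw [Finset.sum_comm]
    refine Finset.sum_congr rfl (fun p _ => ?_)
    rw [← Finset.card_filter]
    have h2 : (Icc 1 Y : Finset ℕ) = Ioc 0 Y := rfl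
    rw [h2]
    exact Nat.Ioc_filter_dvd_card_eq_div Y p
  have h3 : ∑ n ∈ Icc 1 Y, (om P n : ℝ) = ∑ p ∈ P, ((Y / p : ℕ) : ℝ) := by
    rw [← Nat.cast_sum, h1, Nat.cast_sum]
  have h4 : ∀ p ∈ P, (Y : ℝ) * (1 / (p : ℝ)) - 1 ≤ ((Y / p : ℕ) : ℝ) := by
    intro p hp
    have hp0 : 0 < p := (hP p hp).pos
    have hp1 : (0 : ℝ) < p := by exact_mod_cast hp0
    have h5 : Y < p * (Y / p + 1) := Nat.lt_mul_div_succ Y hp0
    have h6 : (Y : ℝ) < p * (((Y / p : ℕ) : ℝ) + 1) := by exact_mod_cast h5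
    have h7 : (Y : ℝ) / p < ((Y / p : ℕ) : ℝ) + 1 := by
      rw [div_lt_iff₀ hp1]
      linarith
    rw [mul_one_div]
    linarith
  rw [h3]
  have h8 := Finset.sum_le_sum h4
  rw [Finset.sum_sub_distrib, ← Finset.mul_sum] at h8
  simp only [Finset.sum_const, nsmul_eq_mul, mul_one] at h8
  exact h8
-- END om_sum

-- BEGIN om_sq
private theorem om_sq_cnt (Y d : ℕ) : (((Icc 1 Y).filter fun n => d ∣ n).card : ℝ) ≤ (Y : ℝ) / d := by
  have h : ((Icc 1 Y).filter fun n => d ∣ n).card = Y / d := by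
    have := Nat.Ioc_filter_dvd_card_eq_div Y d
    rw [← this]
    congr 1
  rw [h]
  exact Nat.cast_div_le

/-- `om P n ^ 2` is the number of pairs `(p, q)` with `p ∣ n`, `q ∣ n`; for `p ≠ q` this is `p q ∣ n`, at most `Y / (p q)` times; for `p = q` at most `Y / p` times. -/
theorem om_sq (P : Finset ℕ) (hP : ∀ p ∈ P, p.Prime) (Y : ℕ) :
    ∑ n ∈ Icc 1 Y, (om P n : ℝ) ^ 2 ≤ (Y : ℝ) * (EP P ^ 2 + EP P) := by
  have h1 : ∀ n : ℕ, (om P n : ℝ) ^ 2 = ∑ p ∈ P, ∑ q ∈ P, if p ∣ n ∧ q ∣ n then (1 : ℝ) else 0 := by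
    intro n
    have h2 : (om P n : ℝ) = ∑ p ∈ P, if p ∣ n then (1 : ℝ) else 0 := by
      unfold om
      rw [Finset.card_filter]
      push_cast
      rfl
    rw [h2, sq, Finset.sum_mul_sum]
    refine Finset.sum_congr rfl fun p _ => Finset.sum_congr rfl fun q _ => ?_
    by_cases hp : p ∣ n <;> by_cases hq : q ∣ n <;> simp [hp, hq]
  have h3 : ∑ n ∈ Icc 1 Y, (om P n : ℝ) ^ 2 =
      ∑ p ∈ P, ∑ q ∈ P, (((Icc 1 Y).filter fun n => p ∣ n ∧ q ∣ n).card : ℝ) := by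
    rw [Finset.sum_congr rfl fun n _ => h1 n, Finset.sum_comm]
    refine Finset.sum_congr rfl fun p _ => ?_
    rw [Finset.sum_comm]
    refine Finset.sum_congr rfl fun q _ => ?_
    rw [Finset.card_filter]
    push_cast
    rfl
  have h4 : ∀ p ∈ P, ∀ q ∈ P, (((Icc 1 Y).filter fun n => p ∣ n ∧ q ∣ n).card : ℝ) ≤
      (Y : ℝ) * (1 / p * (1 / q)) + if p = q then (Y : ℝ) * (1 / p) else 0 := by
    intro p hp q hq
    have hp0 : (0 : ℝ) < p := by exact_mod_cast (hP p hp).pos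
    have hq0 : (0 : ℝ) < q := by exact_mod_cast (hP q hq).pos
    by_cases hpq : p = q
    · subst hpq
      have h5 : ((Icc 1 Y).filter fun n => p ∣ n ∧ p ∣ n) = (Icc 1 Y).filter fun n => p ∣ n := by
        simp
      rw [h5, if_pos rfl]
      have h6 := om_sq_cnt Y p
      have h7 : (0 : ℝ) ≤ (Y : ℝ) * (1 / p * (1 / p)) := by positivity
      have h8 : (Y : ℝ) / p = (Y : ℝ) * (1 / p) := by ring
      linarith
    · rw [if_neg hpq, add_zero]
      have hco : Nat.Coprime p q := (Nat.coprime_primes (hP p hp) (hP q hq)).2 hpq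
      have h5 : ((Icc 1 Y).filter fun n => p ∣ n ∧ q ∣ n) = (Icc 1 Y).filter fun n => p * q ∣ n := by
        refine Finset.filter_congr fun n _ => ?_
        constructor
        · rintro ⟨h, h'⟩
          exact hco.mul_dvd_of_dvd_of_dvd h h'
        · intro h
          exact ⟨(Dvd.intro _ rfl).trans h, (Dvd.intro_left _ rfl).trans h⟩
      rw [h5]
      have h6 := om_sq_cnt Y (p * q)
      have h8 : (Y : ℝ) / ((p * q : ℕ) : ℝ) = (Y : ℝ) * (1 / p * (1 / q)) := by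
        push_cast
        field_simp
      linarith
  rw [h3]
  refine (Finset.sum_le_sum fun p hp => Finset.sum_le_sum fun q hq => h4 p hp q hq).trans (le_of_eq ?_)
  have h9 : ∀ p ∈ P, ∑ q ∈ P, ((Y : ℝ) * (1 / p * (1 / q)) + if p = q then (Y : ℝ) * (1 / p) else 0) =
      (Y : ℝ) * (1 / p * EP P) + (Y : ℝ) * (1 / p) := by
    intro p hp
    rw [Finset.sum_add_distrib, Finset.sum_ite_eq, if_pos hp, ← Finset.mul_sum, ← Finset.mul_sum]
    rfl
  rw [Finset.sum_congr rfl h9, Finset.sum_add_distrib, ← Finset.mul_sum, ← Finset.mul_sum, ← Finset.sum_mul]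
  unfold EP
  ring
-- END om_sq

-- BEGIN turan
/-- Expand the square; `om_sq`, `om_sum`, `0 ≤ EP P`. -/
theorem turan (P : Finset ℕ) (hP : ∀ p ∈ P, p.Prime) (Y : ℕ) :
    ∑ n ∈ Icc 1 Y, ((om P n : ℝ) - EP P) ^ 2 ≤ (Y : ℝ) * EP P + 2 * EP P * P.card := by
  have h0 : 0 ≤ EP P := by
    unfold EP
    exact Finset.sum_nonneg (fun p _ => by positivity)
  have h1 : ∑ n ∈ Icc 1 Y, ((om P n : ℝ) - EP P) ^ 2 =
      ∑ n ∈ Icc 1 Y, (om P n : ℝ) ^ 2 - 2 * EP P * ∑ n ∈ Icc 1 Y, (om P n : ℝ) + Y * EP P ^ 2 := by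
    have h2 : ∀ n ∈ Icc 1 Y, ((om P n : ℝ) - EP P) ^ 2 =
        (om P n : ℝ) ^ 2 - 2 * EP P * (om P n : ℝ) + EP P ^ 2 := by
      intro n _
      ring
    rw [Finset.sum_congr rfl h2, Finset.sum_add_distrib, Finset.sum_sub_distrib, ← Finset.mul_sum,
      Finset.sum_const, Nat.card_Icc, Nat.add_sub_cancel, nsmul_eq_mul]
  have h3 := om_sq P hP Y
  have h4 := om_sum P hP Y
  have h5 : 2 * EP P * ((Y : ℝ) * EP P - P.card) ≤ 2 * EP P * ∑ n ∈ Icc 1 Y, (om P n : ℝ) :=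
    mul_le_mul_of_nonneg_left h4 (by positivity)
  rw [h1]
  nlinarith
-- END turan

-- BEGIN few_low
/-- `turan`: each such `n` contributes at least `(EP P / 10) ^ 2`. -/
theorem few_low (P : Finset ℕ) (hP : ∀ p ∈ P, p.Prime) (hE : 0 < EP P) (Y : ℕ) :
    (((Icc 1 Y).filter fun n => (om P n : ℝ) < 9 / 10 * EP P).card : ℝ) ≤ 100 * (Y + 2 * P.card) / EP P := by
  have h1 : (((Icc 1 Y).filter fun n => (om P n : ℝ) < 9 / 10 * EP P).card : ℝ) * (EP P / 10) ^ 2 ≤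
      ∑ n ∈ (Icc 1 Y).filter (fun n => (om P n : ℝ) < 9 / 10 * EP P), ((om P n : ℝ) - EP P) ^ 2 := by
    rw [← nsmul_eq_mul, ← Finset.sum_const]
    refine Finset.sum_le_sum fun n hn => ?_
    have h2 := (Finset.mem_filter.1 hn).2
    have h3 : (0 : ℝ) ≤ EP P - om P n - EP P / 10 := by linarith
    nlinarith [mul_nonneg h3 h3, mul_nonneg h3 hE.le]
  have h2 := (h1.trans (Finset.sum_le_sum_of_subset_of_nonneg (Finset.filter_subset _ _)
    fun n _ _ => sq_nonneg _)).trans (turan P hP Y)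
  rw [le_div_iff₀ hE]
  have h3 : 0 ≤ (((Icc 1 Y).filter fun n => (om P n : ℝ) < 9 / 10 * EP P).card : ℝ) := Nat.cast_nonneg _
  have h4 : EP P * ((((Icc 1 Y).filter fun n => (om P n : ℝ) < 9 / 10 * EP P).card : ℝ) * EP P) ≤
      EP P * (100 * (Y + 2 * P.card)) := by
    nlinarith
  exact le_of_mul_le_mul_left h4 hE
-- END few_low

-- BEGIN few_high
/-- `turan`: each such `n` contributes at least `(4 / 10 * EP P) ^ 2`. -/
theorem few_high (P : Finset ℕ) (hP : ∀ p ∈ P, p.Prime) (hE : 0 < EP P) (Y : ℕ) :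
    (((Icc 1 Y).filter fun n => 14 / 10 * EP P ≤ (om P n : ℝ)).card : ℝ) ≤ 7 * (Y + 2 * P.card) / EP P := by
  have h1 : (((Icc 1 Y).filter fun n => 14 / 10 * EP P ≤ (om P n : ℝ)).card : ℝ) * (4 / 10 * EP P) ^ 2 ≤
      ∑ n ∈ (Icc 1 Y).filter (fun n => 14 / 10 * EP P ≤ (om P n : ℝ)), ((om P n : ℝ) - EP P) ^ 2 := by
    rw [← nsmul_eq_mul, ← Finset.sum_const]
    refine Finset.sum_le_sum fun n hn => ?_
    have h2 := (Finset.mem_filter.1 hn).2
    have h3 : (0 : ℝ) ≤ om P n - EP P - 4 / 10 * EP P := by linarith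
    nlinarith [mul_nonneg h3 h3, mul_nonneg h3 hE.le]
  have h2 := (h1.trans (Finset.sum_le_sum_of_subset_of_nonneg (Finset.filter_subset _ _)
    fun n _ _ => sq_nonneg _)).trans (turan P hP Y)
  rw [le_div_iff₀ hE]
  have h3 : 0 ≤ (((Icc 1 Y).filter fun n => 14 / 10 * EP P ≤ (om P n : ℝ)).card : ℝ) := Nat.cast_nonneg _
  have h5 : (0 : ℝ) ≤ Y := Nat.cast_nonneg _
  have h6 : (0 : ℝ) ≤ P.card := Nat.cast_nonneg _
  have h4 : EP P * ((((Icc 1 Y).filter fun n => 14 / 10 * EP P ≤ (om P n : ℝ)).card : ℝ) * EP P) ≤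
      EP P * (7 * (Y + 2 * P.card)) := by
    nlinarith [mul_nonneg hE.le h5, mul_nonneg hE.le h6]
  exact le_of_mul_le_mul_left h4 hE
-- END few_high

-- BEGIN few_sq
private theorem few_sq_mult (d Y : ℕ) :
    (((Icc 1 Y).filter fun n => d ∣ n).card : ℝ) ≤ (Y : ℝ) / (d : ℝ) := by
  have h : (Icc 1 Y).filter (fun n => d ∣ n) = (Ioc 0 Y).filter (fun n => d ∣ n) := by
    ext n
    simp only [mem_filter, mem_Icc, mem_Ioc]
    constructor
    · rintro ⟨⟨h1, h2⟩, h3⟩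
      exact ⟨⟨by omega, h2⟩, h3⟩
    · rintro ⟨⟨h1, h2⟩, h3⟩
      exact ⟨⟨by omega, h2⟩, h3⟩
  rw [h, Nat.Ioc_filter_dvd_card_eq_div]
  exact Nat.cast_div_le

private theorem few_sq_tel (M : ℕ) :
    ∑ m ∈ Ico 2 (M + 2), 1 / (m : ℝ) ^ 2 ≤ 1 - 1 / ((M : ℝ) + 1) := by
  induction M with
  | zero => simp
  | succ M ih =>
    rw [show M + 1 + 2 = (M + 2) + 1 from rfl, Finset.sum_Ico_succ_top (by omega)]
    have h : 1 / (((M + 2 : ℕ) : ℝ)) ^ 2 ≤ 1 / ((M : ℝ) + 1) - 1 / ((M : ℝ) + 2) := by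
      have hM : (0 : ℝ) ≤ M := Nat.cast_nonneg M
      push_cast
      rw [div_sub_div _ _ (by positivity) (by positivity),
        div_le_div_iff₀ (by positivity) (by positivity)]
      nlinarith
    have e : (((M + 1 : ℕ) : ℝ)) + 1 = (M : ℝ) + 2 := by
      push_cast
      ring
    rw [e]
    linarith

private theorem few_sq_inv (P : Finset ℕ) (hP : ∀ p ∈ P, p.Prime) :
    ∑ p ∈ P, 1 / (p : ℝ) ^ 2 ≤ 1 := by
  have hsub : P ⊆ Ico 2 (P.sup id + 2) := by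
    intro p hp
    rw [mem_Ico]
    have h1 : p ≤ P.sup id := Finset.le_sup (f := id) hp
    exact ⟨(hP p hp).two_le, by omega⟩
  have h2 := few_sq_tel (P.sup id)
  have h3 : (0 : ℝ) ≤ 1 / (((P.sup id : ℕ) : ℝ) + 1) := by positivity
  have h4 : ∑ p ∈ P, 1 / (p : ℝ) ^ 2 ≤ ∑ m ∈ Ico 2 (P.sup id + 2), 1 / (m : ℝ) ^ 2 :=
    Finset.sum_le_sum_of_subset_of_nonneg hsub fun _ _ _ => by positivity
  linarith

private theorem few_sq_total (P : Finset ℕ) (hP : ∀ p ∈ P, p.Prime) (Y : ℕ) :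
    ∑ n ∈ Icc 1 Y, (om2 P n : ℝ) ≤ Y := by
  have h1 : ∀ n : ℕ, (om2 P n : ℝ) = ∑ p ∈ P, if p ^ 2 ∣ n then (1 : ℝ) else 0 := by
    intro n
    rw [om2, Finset.card_filter]
    push_cast
    rfl
  rw [Finset.sum_congr rfl fun n _ => h1 n, Finset.sum_comm]
  have h2 : ∀ p ∈ P, (∑ n ∈ Icc 1 Y, if p ^ 2 ∣ n then (1 : ℝ) else 0) ≤ (Y : ℝ) * (1 / (p : ℝ) ^ 2) := by
    intro p _
    have h3 : (∑ n ∈ Icc 1 Y, if p ^ 2 ∣ n then (1 : ℝ) else 0)
        = (((Icc 1 Y).filter fun n => p ^ 2 ∣ n).card : ℝ) := by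
      rw [Finset.card_filter]
      push_cast
      rfl
    rw [h3]
    refine (few_sq_mult (p ^ 2) Y).trans (le_of_eq ?_)
    push_cast
    ring
  refine (Finset.sum_le_sum h2).trans ?_
  rw [← Finset.mul_sum]
  have h5 := few_sq_inv P hP
  have h6 : (0 : ℝ) ≤ Y := Nat.cast_nonneg Y
  nlinarith

/-- `∑_{n ≤ Y} om2 P n ≤ Y ∑ 1 / p ^ 2 ≤ Y` (`∑_{m ≥ 2} 1 / m ^ 2 ≤ ∑ 1 / ((m - 1) m) ≤ 1`), and each such `n` contributes at least `4 / 10 * EP P`. -/
theorem few_sq (P : Finset ℕ) (hP : ∀ p ∈ P, p.Prime) (hE : 0 < EP P) (Y : ℕ) :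
    (((Icc 1 Y).filter fun n => 4 / 10 * EP P ≤ (om2 P n : ℝ)).card : ℝ) ≤ 3 * Y / EP P := by
  have h1 := few_sq_total P hP Y
  have h2 : ((((Icc 1 Y).filter fun n => 4 / 10 * EP P ≤ (om2 P n : ℝ)).card : ℝ)) * (4 / 10 * EP P)
      ≤ ∑ n ∈ Icc 1 Y, (om2 P n : ℝ) := by
    have h3 : ((((Icc 1 Y).filter fun n => 4 / 10 * EP P ≤ (om2 P n : ℝ)).card : ℝ)) * (4 / 10 * EP P)
        ≤ ∑ n ∈ (Icc 1 Y).filter (fun n => 4 / 10 * EP P ≤ (om2 P n : ℝ)), (om2 P n : ℝ) := by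
      rw [← nsmul_eq_mul]
      exact Finset.card_nsmul_le_sum _ _ _ fun n hn => (Finset.mem_filter.mp hn).2
    refine h3.trans (Finset.sum_le_sum_of_subset_of_nonneg (Finset.filter_subset _ _) ?_)
    intro n _ _
    exact Nat.cast_nonneg _
  have h4 : (0 : ℝ) ≤ Y := Nat.cast_nonneg Y
  rw [le_div_iff₀ hE]
  nlinarith
-- END few_sq

-- BEGIN om_mul
/-- `om P k + om P c` counts the `p` dividing exactly one of `k, c` once and those dividing both twice; the latter have `p ^ 2 ∣ k c`. -/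
theorem om_mul (P : Finset ℕ) (hP : ∀ p ∈ P, p.Prime) (k c : ℕ) : om P k + om P c ≤ om P (k * c) + om2 P (k * c) := by
  unfold om om2
  rw [← Finset.card_union_add_card_inter]
  refine add_le_add (Finset.card_le_card ?_) (Finset.card_le_card ?_)
  · intro p hp
    rw [Finset.mem_union, Finset.mem_filter, Finset.mem_filter] at hp
    rw [Finset.mem_filter]
    rcases hp with ⟨h1, h2⟩ | ⟨h1, h2⟩
    · exact ⟨h1, h2.mul_right c⟩
    · exact ⟨h1, h2.mul_left k⟩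
  · intro p hp
    rw [Finset.mem_inter, Finset.mem_filter, Finset.mem_filter] at hp
    rw [Finset.mem_filter, pow_two]
    exact ⟨hp.1.1, mul_dvd_mul hp.1.2 hp.2.2⟩
-- END om_mul

-- BEGIN split
open Classical in
/-- If `k c = 2 N` with `k, c ≤ Y` then `om P k < 9 / 10 E` (and `(k, c)`, which determines `N`, is one of few pairs), or `om P c < 9 / 10 E`, or
`om P (2 N) ≥ 14 / 10 E`, or `om2 P (2 N) ≥ 4 / 10 E` (`om_mul`, `18 / 10 = 14 / 10 + 4 / 10`). Bounds: `few_low` with `Y`, `few_high` and `few_sq` with `2 X`. -/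
theorem split (P : Finset ℕ) (hP : ∀ p ∈ P, p.Prime) (hE : 0 < EP P) (X Y : ℕ) :
    (((Icc 1 X).filter fun N => ∃ k c, k * c = 2 * N ∧ k ≤ Y ∧ c ≤ Y).card : ℝ) ≤
      2 * Y * (100 * (Y + 2 * P.card) / EP P) + 7 * (2 * X + 2 * P.card) / EP P + 3 * (2 * X) / EP P := by
  set A := (Icc 1 X).filter fun N => ∃ k c, k * c = 2 * N ∧ k ≤ Y ∧ c ≤ Y with hA
  set L := (Icc 1 Y).filter fun n => (om P n : ℝ) < 9 / 10 * EP P with hL
  set H := (Icc 1 (2 * X)).filter fun n => 14 / 10 * EP P ≤ (om P n : ℝ) with hH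
  set Q := (Icc 1 (2 * X)).filter fun n => 4 / 10 * EP P ≤ (om2 P n : ℝ) with hQ
  have hsub : A.image (fun N => 2 * N) ⊆
      ((L ×ˢ Icc 1 Y).image (fun x : ℕ × ℕ => x.1 * x.2)) ∪
      ((L ×ˢ Icc 1 Y).image (fun x : ℕ × ℕ => x.1 * x.2)) ∪ H ∪ Q := by
    intro m hm
    rw [Finset.mem_image] at hm
    obtain ⟨N, hN, rfl⟩ := hm
    rw [hA, Finset.mem_filter, Finset.mem_Icc] at hN
    obtain ⟨⟨hN1, hN2⟩, k, c, hkc, hk, hc⟩ := hN
    have hk1 : 1 ≤ k := Nat.pos_of_ne_zero (by rintro rfl; simp at hkc; omega)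
    have hc1 : 1 ≤ c := Nat.pos_of_ne_zero (by rintro rfl; simp at hkc; omega)
    simp only [Finset.mem_union]
    by_cases h1 : (om P k : ℝ) < 9 / 10 * EP P
    · left; left; left
      rw [Finset.mem_image]
      exact ⟨(k, c), by
        rw [Finset.mem_product, hL, Finset.mem_filter, Finset.mem_Icc, Finset.mem_Icc]
        exact ⟨⟨⟨hk1, hk⟩, h1⟩, hc1, hc⟩, hkc⟩
    by_cases h2 : (om P c : ℝ) < 9 / 10 * EP P
    · left; left; left
      rw [Finset.mem_image]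
      exact ⟨(c, k), by
        rw [Finset.mem_product, hL, Finset.mem_filter, Finset.mem_Icc, Finset.mem_Icc]
        exact ⟨⟨⟨hc1, hc⟩, h2⟩, hk1, hk⟩, by
          show c * k = 2 * N
          rw [mul_comm]; exact hkc⟩
    have h3 := om_mul P hP k c
    rw [hkc] at h3
    have h3' : (om P k : ℝ) + om P c ≤ om P (2 * N) + om2 P (2 * N) := by exact_mod_cast h3
    by_cases h4 : 14 / 10 * EP P ≤ (om P (2 * N) : ℝ)
    · left; right
      rw [hH, Finset.mem_filter, Finset.mem_Icc]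
      exact ⟨⟨by omega, by omega⟩, h4⟩
    · right
      rw [hQ, Finset.mem_filter, Finset.mem_Icc]
      exact ⟨⟨by omega, by omega⟩, by push Not at h1 h2 h4; linarith⟩
  have hcard : (A.card : ℝ) ≤ L.card * Y + L.card * Y + H.card + Q.card := by
    have h1 : A.card = (A.image fun N => 2 * N).card :=
      (Finset.card_image_of_injective _ fun a b h => by
        have : 2 * a = 2 * b := h
        omega).symm
    have h2 := Finset.card_le_card hsub
    have h3 : ((L ×ˢ Icc 1 Y).image (fun x : ℕ × ℕ => x.1 * x.2)).card ≤ L.card * Y := by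
      refine Finset.card_image_le.trans ?_
      rw [Finset.card_product, Nat.card_Icc]
      simp
    have h4 : A.card ≤ L.card * Y + L.card * Y + H.card + Q.card := by
      rw [h1]
      refine h2.trans ((Finset.card_union_le _ _).trans ?_)
      have h5 := Finset.card_union_le (((L ×ˢ Icc 1 Y).image (fun x : ℕ × ℕ => x.1 * x.2)) ∪
        ((L ×ˢ Icc 1 Y).image (fun x : ℕ × ℕ => x.1 * x.2))) H
      have h6 := Finset.card_union_le ((L ×ˢ Icc 1 Y).image (fun x : ℕ × ℕ => x.1 * x.2))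
        ((L ×ˢ Icc 1 Y).image (fun x : ℕ × ℕ => x.1 * x.2))
      omega
    exact_mod_cast h4
  have g1 : (L.card : ℝ) ≤ 100 * (Y + 2 * P.card) / EP P := few_low P hP hE Y
  have g2 : (H.card : ℝ) ≤ 7 * (2 * X + 2 * P.card) / EP P := by
    have := few_high P hP hE (2 * X)
    push_cast at this
    exact this
  have g3 : (Q.card : ℝ) ≤ 3 * (2 * X) / EP P := by
    have := few_sq P hP hE (2 * X)
    push_cast at this
    exact this
  have g4 : (L.card : ℝ) * Y ≤ 100 * (Y + 2 * P.card) / EP P * Y :=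
    mul_le_mul_of_nonneg_right g1 (Nat.cast_nonneg _)
  linarith
-- END split

-- BEGIN big_E
/-- The sum of the reciprocals of the primes diverges (Mathlib: `Nat.Primes.not_summable_one_div` or `not_summable_one_div_on_primes`). -/
theorem big_E (B : ℝ) : ∃ P : Finset ℕ, (∀ p ∈ P, p.Prime) ∧ B ≤ EP P := by
  by_contra hcon
  push Not at hcon
  apply not_summable_one_div_on_primes
  refine summable_of_sum_le (c := B) (fun i => ?_) (fun u => ?_)
  · exact Set.indicator_nonneg (fun x _ => by positivity) i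
  · have h1 : ∑ x ∈ u, Set.indicator {p : ℕ | p.Prime} (fun n : ℕ => (1 : ℝ) / n) x =
        EP (u.filter Nat.Prime) := by
      unfold EP
      rw [Finset.sum_filter]
      refine Finset.sum_congr rfl (fun x _ => ?_)
      rw [Set.indicator_apply]
      rfl
    rw [h1]
    exact (hcon _ (fun p hp => (Finset.mem_filter.1 hp).2)).le
-- END big_E

-- BEGIN mt
open Classical in
/-- MULTIPLICATION TABLE. `split` with `Y = Nat.sqrt (20000 * X)` and `P` with `EP P ≥ (800 * 20000 + 100) / ε` (`big_E`); the terms with `P.card` are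
`O_P (Y + 1)`, at most `ε X / 4` for large `X`. (`N ≤ X`, so `k ^ 2 ≤ 20000 N ≤ 20000 X` gives `k ≤ Y`.) -/
theorem mt (ε : ℝ) (hε : 0 < ε) : ∃ X₀ : ℕ, ∀ X : ℕ, X₀ ≤ X →
    (((Icc 1 X).filter fun N => ∃ k c, k * c = 2 * N ∧ k ^ 2 ≤ 20000 * N ∧ c ^ 2 ≤ 20000 * N).card : ℝ) ≤ ε * X := by
  obtain ⟨P, hP, hE⟩ := big_E (16000100 / ε)
  have hE0 : 0 < EP P := lt_of_lt_of_le (by positivity) hE
  refine ⟨P.card ^ 2 + P.card + 1, fun X hX => ?_⟩
  have h1 := split P hP hE0 X (Nat.sqrt (20000 * X))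
  have h2 : (((Icc 1 X).filter fun N => ∃ k c, k * c = 2 * N ∧ k ^ 2 ≤ 20000 * N ∧ c ^ 2 ≤ 20000 * N).card : ℝ) ≤
      (((Icc 1 X).filter fun N => ∃ k c, k * c = 2 * N ∧ k ≤ Nat.sqrt (20000 * X) ∧
        c ≤ Nat.sqrt (20000 * X)).card : ℝ) := by
    have h3 : ((Icc 1 X).filter fun N => ∃ k c, k * c = 2 * N ∧ k ^ 2 ≤ 20000 * N ∧ c ^ 2 ≤ 20000 * N) ⊆
        ((Icc 1 X).filter fun N => ∃ k c, k * c = 2 * N ∧ k ≤ Nat.sqrt (20000 * X) ∧
        c ≤ Nat.sqrt (20000 * X)) := by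
      intro N hN
      obtain ⟨hN1, k, c, hkc, hk, hc⟩ := Finset.mem_filter.1 hN
      have hNX : N ≤ X := (Finset.mem_Icc.1 hN1).2
      refine Finset.mem_filter.2 ⟨hN1, k, c, hkc, ?_, ?_⟩
      · exact Nat.le_sqrt'.2 (by omega)
      · exact Nat.le_sqrt'.2 (by omega)
    exact_mod_cast Finset.card_le_card h3
  refine le_trans h2 (le_trans h1 ?_)
  set Y : ℕ := Nat.sqrt (20000 * X) with hY
  have hYn : Y ^ 2 ≤ 20000 * X := Nat.sqrt_le' _
  have hYr : (Y : ℝ) ^ 2 ≤ 20000 * X := by exact_mod_cast hYn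
  have hXr : ((P.card : ℝ)) ^ 2 + P.card + 1 ≤ X := by exact_mod_cast hX
  set m : ℝ := (P.card : ℝ) with hm
  have hm0 : 0 ≤ m := by positivity
  have hY0 : (0 : ℝ) ≤ Y := by positivity
  have hX0 : (0 : ℝ) ≤ X := by positivity
  have h5 : 400 * (Y : ℝ) * m ≤ 1000000 * X := by
    have h6 : (400 * (Y : ℝ) * m) ^ 2 ≤ (1000000 * (X : ℝ)) ^ 2 := by
      have h7 : (400 * (Y : ℝ) * m) ^ 2 = 160000 * m ^ 2 * (Y : ℝ) ^ 2 := by ring
      have h8 : 160000 * m ^ 2 * (Y : ℝ) ^ 2 ≤ 160000 * m ^ 2 * (20000 * X) :=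
        mul_le_mul_of_nonneg_left hYr (by positivity)
      have h9 : m ^ 2 ≤ X := by linarith
      have h10 : m ^ 2 * (X : ℝ) ≤ X * X := mul_le_mul_of_nonneg_right h9 hX0
      rw [h7]
      nlinarith
    exact abs_le_of_sq_le_sq' h6 (by positivity) |>.2
  have h11 : 14 * m ≤ 14 * (X : ℝ) := by nlinarith
  have h12 : 2 * (Y : ℝ) * (100 * (Y + 2 * m) / EP P) + 7 * (2 * X + 2 * m) / EP P + 3 * (2 * X) / EP P =
      (200 * (Y : ℝ) ^ 2 + 400 * Y * m + 20 * X + 14 * m) / EP P := by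
    field_simp
    ring
  rw [h12, div_le_iff₀ hE0]
  have h13 : 16000100 ≤ ε * EP P := by
    rw [div_le_iff₀ hε] at hE
    linarith
  have h14 : 16000100 * (X : ℝ) ≤ ε * EP P * X := mul_le_mul_of_nonneg_right h13 hX0
  nlinarith
-- END mt

end Ntp
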