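import Pool.Agent.Ntp.Cj

/-!
# The restricted divisor count
-/

set_option autoImplicit false

namespace Ntp

open Finset

-- BEGIN L_iff
private theorem L_iff_pe (k μ N : ℕ) (hk : 1 ≤ k) : pe k μ = N ↔ k * (3 * k - 1 + 2 * μ) = 2 * N := by
  have h2 : 2 ∣ k * (3 * k - 1) := by
    rcases Nat.even_or_odd' k with ⟨t, ht | ht⟩
    · exact Dvd.dvd.mul_right ⟨t, ht⟩ _
    · exact Dvd.dvd.mul_left ⟨3 * t + 1, by omega⟩ _
  obtain ⟨t, ht⟩ := h2
  unfold pe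
  rw [mul_add, ht, Nat.mul_div_cancel_left _ (by norm_num), mul_left_comm k 2 μ]
  omega

/-- `2 * pe k μ = k * (3 k - 1 + 2 μ)`; `μ` is determined by `k`. -/
theorem L_iff (S : Finset ℕ) (N : ℕ) (hN : 1 ≤ N) : Lc S N = ((Icc 1 N).filter fun k =>
    k ∣ 2 * N ∧ 3 * k + 1 ≤ 2 * N / k ∧ (2 * N / k - (3 * k - 1)) % 2 = 0 ∧
      ((2 * N / k - (3 * k - 1)) / 2) % 10 ∈ S).card := by
  unfold Lc
  have key : ∀ k μ, 1 ≤ k → pe k μ = N → 2 * N / k = 3 * k - 1 + 2 * μ := by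
    intro k μ hk h
    rw [L_iff_pe k μ N hk] at h
    rw [← h, Nat.mul_div_cancel_left _ (by omega)]
  refine Finset.card_bij (fun x _ => x.1) ?_ ?_ ?_
  · rintro ⟨k, μ⟩ hx
    rw [mem_filter, mem_product, mem_Icc, mem_Icc] at hx
    obtain ⟨⟨⟨hk1, hk2⟩, hμ1, hμ2⟩, hS, hpe⟩ := hx
    have h1 := key k μ hk1 hpe
    rw [mem_filter, mem_Icc]
    refine ⟨⟨hk1, hk2⟩, ⟨3 * k - 1 + 2 * μ, ?_⟩, ?_, ?_, ?_⟩
    · exact ((L_iff_pe k μ N hk1).1 hpe).symm
    · show 3 * k + 1 ≤ 2 * N / k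
      rw [h1]
      omega
    · show (2 * N / k - (3 * k - 1)) % 2 = 0
      rw [h1]
      omega
    · show ((2 * N / k - (3 * k - 1)) / 2) % 10 ∈ S
      rw [h1]
      have h2 : (3 * k - 1 + 2 * μ - (3 * k - 1)) / 2 = μ := by omega
      rw [h2]
      exact hS
  · rintro ⟨k, μ⟩ hx ⟨k', μ'⟩ hx' h
    rw [mem_filter, mem_product, mem_Icc, mem_Icc] at hx hx'
    have hkk : k = k' := h
    subst hkk
    have h1 := key k μ hx.1.1.1 hx.2.2
    have h2 := key k μ' hx.1.1.1 hx'.2.2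
    have h3 : μ = μ' := by omega
    rw [h3]
  · intro k hk
    rw [mem_filter, mem_Icc] at hk
    obtain ⟨⟨hk1, hk2⟩, hd, h3, h4, h5⟩ := hk
    have hq : k * (2 * N / k) = 2 * N := Nat.mul_div_cancel' hd
    have h6 : 3 * k - 1 + 2 * ((2 * N / k - (3 * k - 1)) / 2) = 2 * N / k := by omega
    have hpe : pe k ((2 * N / k - (3 * k - 1)) / 2) = N := by
      rw [L_iff_pe k _ N hk1, h6]
      exact hq
    refine ⟨(k, (2 * N / k - (3 * k - 1)) / 2), ?_, rfl⟩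
    rw [mem_filter, mem_product, mem_Icc, mem_Icc]
    refine ⟨⟨⟨hk1, hk2⟩, ?_, ?_⟩, h5, hpe⟩
    · show 1 ≤ (2 * N / k - (3 * k - 1)) / 2
      omega
    · show (2 * N / k - (3 * k - 1)) / 2 ≤ N
      have h7 : 2 * N / k ≤ 2 * N := Nat.div_le_self _ _
      omega
-- END L_iff

-- BEGIN L_prime
private theorem L_prime_set (S : Finset ℕ) (p : ℕ) (hp : p.Prime) (h : p % 20 = 1) (k : ℕ) :
    k ∈ ((Icc 1 p).filter fun k => k ∣ 2 * p ∧ 3 * k + 1 ≤ 2 * p / k ∧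
      (2 * p / k - (3 * k - 1)) % 2 = 0 ∧ ((2 * p / k - (3 * k - 1)) / 2) % 10 ∈ S) ↔
      (k = 1 ∧ 0 ∈ S) ∨ (k = 2 ∧ 8 ∈ S) := by
  have hp2 := hp.two_le
  have hp41 : 21 ≤ p := by omega
  rw [Finset.mem_filter, Finset.mem_Icc]
  constructor
  · rintro ⟨⟨h1, h2⟩, h3, h4, h5, h6⟩
    by_cases hk : p ∣ k
    · have hkp : k = p := le_antisymm h2 (Nat.le_of_dvd (by omega) hk)
      rw [hkp, Nat.mul_div_cancel _ (by omega)] at h4
      omega
    · have hco : Nat.Coprime k p := ((Nat.Prime.coprime_iff_not_dvd hp).2 hk).symm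
      have h7 : k ∣ 2 := hco.dvd_of_dvd_mul_right h3
      rcases (Nat.dvd_prime Nat.prime_two).1 h7 with rfl | rfl
      · left
        refine ⟨rfl, ?_⟩
        rw [Nat.div_one] at h6
        have h8 : (2 * p - (3 * 1 - 1)) / 2 % 10 = 0 := by omega
        rwa [h8] at h6
      · right
        refine ⟨rfl, ?_⟩
        rw [Nat.mul_div_cancel_left p (by norm_num)] at h6
        have h8 : (p - (3 * 2 - 1)) / 2 % 10 = 8 := by omega
        rwa [h8] at h6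
  · rintro (⟨rfl, h0⟩ | ⟨rfl, h0⟩)
    · rw [Nat.div_one]
      have h8 : (2 * p - (3 * 1 - 1)) / 2 % 10 = 0 := by omega
      rw [h8]
      exact ⟨⟨le_refl 1, by omega⟩, one_dvd _, by omega, by omega, h0⟩
    · rw [Nat.mul_div_cancel_left p (by norm_num)]
      have h8 : (p - (3 * 2 - 1)) / 2 % 10 = 8 := by omega
      rw [h8]
      exact ⟨⟨by norm_num, by omega⟩, Dvd.intro p rfl, by omega, by omega, h0⟩

/-- `L_iff`: the divisors of `2 p` are `1, 2, p, 2 p`; for `k = 1` the `μ` is `p - 1 ≡ 0 mod 10`, for `k = 2` it is `(p - 5) / 2 ≡ 8 mod 10`, `k = p` is too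
large. (`p ≥ 41`.) So `Lc S1 p = 1` and `Lc S3 p = 1`. -/
theorem L_prime (p : ℕ) (hp : p.Prime) (h : p % 20 = 1) : Lc S1 p = 1 ∧ Lc S3 p = 1 := by
  have h1 := hp.one_lt.le
  constructor
  · rw [L_iff S1 p h1, Finset.card_eq_one]
    refine ⟨1, Finset.ext fun k => ?_⟩
    rw [L_prime_set S1 p hp h k, Finset.mem_singleton]
    have h2 : 0 ∈ S1 := by decide
    have h3 : 8 ∉ S1 := by decide
    tauto
  · rw [L_iff S3 p h1, Finset.card_eq_one]
    refine ⟨2, Finset.ext fun k => ?_⟩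
    rw [L_prime_set S3 p hp h k, Finset.mem_singleton]
    have h2 : 0 ∉ S3 := by decide
    have h3 : 8 ∈ S3 := by decide
    tauto
-- END L_prime

-- BEGIN L_pair
private theorem L_pair_res (S : Finset ℕ) (k c : ℕ) (hk : 1 ≤ k) (h : 3 * (41 * k) + 1 ≤ c) :
    ((c - (3 * (41 * k) - 1)) % 2 = 0 ∧ ((c - (3 * (41 * k) - 1)) / 2) % 10 ∈ S) ↔
    ((41 * c - (3 * k - 1)) % 2 = 0 ∧ ((41 * c - (3 * k - 1)) / 2) % 10 ∈ S) := by
  have e1 : (c - (3 * (41 * k) - 1)) % 20 = (41 * c - (3 * k - 1)) % 20 := by omega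
  have e2 : ∀ x : ℕ, x % 2 = (x % 20) % 2 := by intro x; omega
  have e3 : ∀ x : ℕ, (x / 2) % 10 = (x % 20) / 2 := by intro x; omega
  rw [e2 (c - _), e3 (c - _), e2 (41 * c - _), e3 (41 * c - _), e1]

private theorem L_pair_mem (S : Finset ℕ) (N k c : ℕ) (hk : 1 ≤ k) (h : k * c = 2 * N) :
    k ∈ ((Icc 1 N).filter fun k => k ∣ 2 * N ∧ 3 * k + 1 ≤ 2 * N / k ∧
      (2 * N / k - (3 * k - 1)) % 2 = 0 ∧ ((2 * N / k - (3 * k - 1)) / 2) % 10 ∈ S) ↔
    3 * k + 1 ≤ c ∧ (c - (3 * k - 1)) % 2 = 0 ∧ ((c - (3 * k - 1)) / 2) % 10 ∈ S := by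
  have hc : 2 * N / k = c := by rw [← h]; exact Nat.mul_div_cancel_left c (by omega)
  rw [mem_filter, mem_Icc, hc]
  constructor
  · rintro ⟨_, _, h1⟩
    exact h1
  · rintro ⟨h1, h2⟩
    refine ⟨⟨hk, ?_⟩, ⟨c, h.symm⟩, h1, h2⟩
    have : k * (3 * k + 1) ≤ k * c := Nat.mul_le_mul_left k h1
    nlinarith

/-- Pairing `k ↦ 41 k` (`k` not divisible by `41`). Let `A` be the set of `L_iff`, `A₂` its members divisible by `41`. `k ∈ A₂`, `c = 2 N / k`: then `k / 41 ∈ A` with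
`41 c` in place of `c` (the residue of `c - (3 k - 1)` mod `20` does not change since `41 ≡ 1`), and `41 ∤ k / 41` since `41 ^ 2 ∤ 2 N`. Conversely `k ∈ A`, `41 ∤ k`:
then `41 ∣ c = 2 N / k`, and `41 k ∈ A` unless `c / 41 < 123 k + 1`, i.e. `c < 5043 k + 41 ≤ 5084 k`; but then `k ^ 2 ≤ k c = 2 N` and
`c ^ 2 ≤ 5084 k c = 10168 N`, which `hn` excludes. So `A` is twice `A₂` in number. -/
theorem L_pair (S : Finset ℕ) (N : ℕ) (h1 : 41 ∣ N) (h2 : ¬ 1681 ∣ N) (hN : 1 ≤ N)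
    (hn : ∀ k c, k * c = 2 * N → ¬ (k ^ 2 ≤ 20000 * N ∧ c ^ 2 ≤ 20000 * N)) : Even (Lc S N) := by
  rw [L_iff S N hN]
  have hmem := L_pair_mem S N
  set A := ((Icc 1 N).filter fun k => k ∣ 2 * N ∧ 3 * k + 1 ≤ 2 * N / k ∧
      (2 * N / k - (3 * k - 1)) % 2 = 0 ∧ ((2 * N / k - (3 * k - 1)) / 2) % 10 ∈ S) with hA
  have hpos : ∀ k ∈ A, 1 ≤ k ∧ ∃ c, k * c = 2 * N := by
    intro k hk
    rw [hA, mem_filter, mem_Icc] at hk
    obtain ⟨⟨h3, _⟩, ⟨c, hc⟩, _⟩ := hk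
    exact ⟨h3, c, hc.symm⟩
  have h41 : Nat.Prime 41 := by norm_num
  have himg : (A.filter fun k => 41 ∣ k) = (A.filter fun k => ¬ 41 ∣ k).image (fun k => 41 * k) := by
    ext j
    rw [mem_filter, mem_image]
    constructor
    · rintro ⟨hj, k, rfl⟩
      obtain ⟨h3, c, hc⟩ := hpos _ hj
      have hk1 : 1 ≤ k := by omega
      refine ⟨k, ?_, rfl⟩
      rw [mem_filter]
      rw [hmem (41 * k) c h3 hc] at hj
      have h4 := (L_pair_res S k c hk1 hj.1).1 hj.2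
      refine ⟨?_, ?_⟩
      · rw [hmem k (41 * c) hk1 (by rw [← hc]; ring)]
        exact ⟨by omega, h4⟩
      · rintro ⟨l, rfl⟩
        apply h2
        have h5 : 1681 ∣ 2 * N := ⟨l * c, by rw [← hc]; ring⟩
        exact (Nat.Coprime.dvd_mul_left (by norm_num)).1 h5
    · rintro ⟨k, hk, rfl⟩
      rw [mem_filter] at hk
      obtain ⟨h3, c, hc⟩ := hpos _ hk.1
      have h4 : 41 ∣ k * c := by rw [hc]; exact h1.mul_left 2
      obtain ⟨d, rfl⟩ := (h41.dvd_mul.1 h4).resolve_left hk.2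
      have h5 := (hmem k (41 * d) h3 hc).1 hk.1
      have h6 : 3 * (41 * k) + 1 ≤ d := by
        by_contra h7
        push Not at h7
        refine hn k (41 * d) hc ⟨?_, ?_⟩
        · have : k * (3 * k + 1) ≤ k * (41 * d) := Nat.mul_le_mul_left k h5.1
          nlinarith
        · have h8 : 41 * d ≤ 5043 * k := by omega
          have : (41 * d) * (41 * d) ≤ (5043 * k) * (41 * d) := Nat.mul_le_mul_right _ h8
          nlinarith
      refine ⟨?_, ⟨k, rfl⟩⟩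
      rw [hmem (41 * k) d (by omega) (by rw [← hc]; ring)]
      exact ⟨h6, (L_pair_res S k d h3 h6).2 h5.2⟩
  have hcard : (A.filter fun k => 41 ∣ k).card = (A.filter fun k => ¬ 41 ∣ k).card := by
    rw [himg]
    exact card_image_of_injective _ fun a b h => by simpa using h
  rw [← card_filter_add_card_filter_not (fun k => 41 ∣ k), hcard]
  exact ⟨_, rfl⟩
-- END L_pair

end Ntp
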