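import Pool.Agent.SWz.Main

/-!
# Primes in a residue class: a lower bound of the right order
-/

set_option autoImplicit false

namespace Ntp

open Finset

-- BEGIN pap
/-- Prime number theorem for the class `1` mod `20` as a lower bound; from `Pool.Agent.SWz.swlam : Pool.Agent.BGG.SWLam` (Siegel-Walfisz for the von Mangoldt
function; see `Pool/Agent/BGG/Defs.lean`; other hand-ins do the same for intervals, e.g. `Pool/Agent/BGV/Final.lean`), the prime powers cost `O(√x log x)`, and
`Λ(p) ≤ log x`. -/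
theorem pap : ∃ c : ℝ, 0 < c ∧ ∃ x₀ : ℕ, ∀ x : ℕ, x₀ ≤ x →
    c * x / Real.log x ≤ (((Icc 1 x).filter fun p => p.Prime ∧ p % 20 = 1).card : ℝ) := by
  obtain ⟨C, hC⟩ := Pool.Agent.SWz.swlam 1
  have e1 : ∀ᶠ y : ℝ in Filter.atTop, 64 * Real.log y ≤ √y := by
    have h := (isLittleO_log_rpow_atTop (show (0 : ℝ) < 1 / 2 by norm_num)).bound
      (show (0 : ℝ) < 1 / 64 by norm_num)
    filter_upwards [h, Filter.eventually_ge_atTop (1 : ℝ)] with y hy hy1
    rw [Real.norm_of_nonneg (Real.log_nonneg hy1), Real.norm_of_nonneg (by positivity)] at hy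
    rw [Real.sqrt_eq_rpow]
    linarith
  have e2 : ∀ᶠ y : ℝ in Filter.atTop, 16 * |C| + 1 ≤ Real.log y :=
    Real.tendsto_log_atTop.eventually_ge_atTop _
  obtain ⟨x₁, hx₁⟩ := Filter.eventually_atTop.mp (e1.and e2)
  refine ⟨1 / 32, by norm_num, max 2 (Nat.ceil x₁), fun x hx => ?_⟩
  have hx2 : 2 ≤ x := le_trans (le_max_left _ _) hx
  have hxx : x₁ ≤ (x : ℝ) := le_trans (Nat.le_ceil x₁) (by exact_mod_cast le_trans (le_max_right _ _) hx)
  obtain ⟨h1, h2⟩ := hx₁ x hxx
  have hx2' : (2 : ℝ) ≤ x := by exact_mod_cast hx2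
  have hlog : 0 < Real.log x := Real.log_pos (by linarith)
  have h3 := hC x hx2' 20 1 (by norm_num) (by exact isCoprime_one_left)
  have htot : (20 : ℕ).totient = 8 := by decide
  rw [htot, pow_one, Nat.floor_natCast] at h3
  set S := ∑ n ∈ Icc 1 x, if ((20 : ℕ) : ℤ) ∣ (n : ℤ) - 1 then ArithmeticFunction.vonMangoldt n else 0 with hS
  have h4 : (x : ℝ) / 16 ≤ S := by
    have h5 := (abs_le.mp h3).1
    have h6 : C * x / Real.log x ≤ x / 16 := by
      rw [div_le_iff₀ hlog]
      have : C ≤ |C| := le_abs_self C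
      nlinarith
    push_cast at h5
    linarith
  have h7 : S ≤ Real.log x * (((Icc 1 x).filter fun p => p.Prime ∧ p % 20 = 1).card : ℝ) +
      2 * √x * Real.log x := by
    have h8 : S ≤ ∑ n ∈ Icc 1 x, ((if n.Prime ∧ n % 20 = 1 then Real.log x else 0) +
        (if ¬ n.Prime then ArithmeticFunction.vonMangoldt n else 0)) := by
      refine Finset.sum_le_sum fun n hn => ?_
      rw [Finset.mem_Icc] at hn
      have hL : 0 ≤ ArithmeticFunction.vonMangoldt n := ArithmeticFunction.vonMangoldt_nonneg
      by_cases hp : n.Prime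
      · have hLp : ArithmeticFunction.vonMangoldt n ≤ Real.log x := by
          rw [ArithmeticFunction.vonMangoldt_apply_prime hp]
          exact Real.log_le_log (by exact_mod_cast hn.1) (by exact_mod_cast hn.2)
        by_cases hd : ((20 : ℕ) : ℤ) ∣ (n : ℤ) - 1
        · have hm : n % 20 = 1 := by push_cast at hd; omega
          simp only [if_pos hd, hp, hm, and_self, if_true, not_true_eq_false, if_false, add_zero]
          exact hLp
        · rw [if_neg hd]
          have : 0 ≤ (if n.Prime ∧ n % 20 = 1 then Real.log x else 0) := by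
            split_ifs <;> [exact hlog.le; exact le_rfl]
          simp only [hp, not_true_eq_false, if_false, add_zero]
          simpa [hp] using this
      · simp only [hp, false_and, if_false, not_false_eq_true, if_true, zero_add]
        split_ifs <;> [exact le_rfl; exact hL]
    refine h8.trans ?_
    rw [Finset.sum_add_distrib]
    refine add_le_add ?_ ?_
    · rw [← Finset.sum_filter, Finset.sum_const, nsmul_eq_mul, mul_comm]
    · have h9 := Chebyshev.psi_sub_theta_le (x := (x : ℝ)) (by linarith)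
      have h10 := Chebyshev.psi_sub_theta_eq_sum_not_prime (x : ℝ)
      rw [h10] at h9
      refine le_trans (le_of_eq ?_) h9
      rw [← Finset.sum_filter, Nat.floor_natCast]
      refine Finset.sum_congr ?_ fun _ _ => rfl
      ext n
      simp only [Finset.mem_filter, Finset.mem_Icc, Finset.mem_Ioc]
      constructor
      · rintro ⟨⟨a, b⟩, c⟩; exact ⟨⟨by omega, b⟩, c⟩
      · rintro ⟨⟨a, b⟩, c⟩; exact ⟨⟨by omega, b⟩, c⟩
  have h11 : 2 * √x * Real.log x ≤ (x : ℝ) / 32 := by
    have hs : √(x : ℝ) * √(x : ℝ) = x := Real.mul_self_sqrt (by linarith)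
    have hs0 : 0 ≤ √(x : ℝ) := Real.sqrt_nonneg _
    nlinarith
  rw [div_le_iff₀ hlog]
  linarith [mul_comm (Real.log x) (((Icc 1 x).filter fun p => p.Prime ∧ p % 20 = 1).card : ℝ)]
-- END pap

end Ntp
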