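import Pool.Agent.Ntp.Ser
import Pool.Agent.Ntp.Num
import Pool.Agent.Ntp.Mul
import Pool.Agent.Ntp.Gap
import Pool.Agent.Ntp.Pap

/-!
# Both parities occur often
-/

set_option autoImplicit false

namespace Ntp

open Finset

-- BEGIN main_odd
private theorem main_odd_lim (c : ℝ) (hc : 0 < c) : ∃ x₀ : ℕ, ∀ x : ℕ, x₀ ≤ x → Real.log x ≤ c * √x := by
  have h1 := (isLittleO_log_rpow_atTop (r := (1/2 : ℝ)) (by norm_num)).bound hc
  have h2 := h1.and (Filter.eventually_ge_atTop (1 : ℝ))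
  rw [Filter.eventually_atTop] at h2
  obtain ⟨a, ha⟩ := h2
  refine ⟨⌈a⌉₊, fun x hx => ?_⟩
  have hax : a ≤ (x : ℝ) := le_trans (Nat.le_ceil a) (by exact_mod_cast hx)
  obtain ⟨h3, h4⟩ := ha x hax
  rw [Real.norm_eq_abs, Real.norm_eq_abs, ← Real.sqrt_eq_rpow] at h3
  rw [abs_of_nonneg (Real.sqrt_nonneg _)] at h3
  exact le_trans (le_abs_self _) h3

/-- `few` with `f = F r`: `cv f p = Lc S p = 1` for the primes `p ≡ 1` mod `20` (`cv_F`, `L_prime`), `pap`; `2 √X + 1 ≤ 3 √X`; `F r 0 = 0` is not needed (one term less does not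
matter: `c` is halved). -/
theorem main_odd (r : ℤ) (h : r = 1 ∨ r = 3) : ∃ c : ℝ, 0 < c ∧ ∃ x₀ : ℕ, ∀ x : ℕ, x₀ ≤ x →
    c * √x / Real.log x ≤ (((Icc 1 x).filter fun k => (F r k : ZMod 2) ≠ 0).card : ℝ) := by
  obtain ⟨c, hc, x₀, hx₀⟩ := pap
  obtain ⟨x₁, hx₁⟩ := main_odd_lim (c / 6) (by positivity)
  refine ⟨c / 6, by positivity, x₀ + x₁ + 3, fun x hx => ?_⟩
  have h1 := hx₀ x (by omega)
  have h2 := hx₁ x (by omega)
  have hx3 : 3 ≤ x := by omega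
  have hS : ∃ S : Finset ℕ, ((r = 1 ∧ S = S1) ∨ (r = 3 ∧ S = S3)) ∧ ∀ p : ℕ, p.Prime → p % 20 = 1 → Lc S p = 1 := by
    rcases h with h | h
    · exact ⟨S1, Or.inl ⟨h, rfl⟩, fun p hp h => (L_prime p hp h).1⟩
    · exact ⟨S3, Or.inr ⟨h, rfl⟩, fun p hp h => (L_prime p hp h).2⟩
  obtain ⟨S, hS, hL⟩ := hS
  have h3 : ((Icc 1 x).filter fun p => p.Prime ∧ p % 20 = 1).card ≤
      ((range (x + 1)).filter fun N => cv (fun n => (F r n : ZMod 2)) N ≠ 0).card := by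
    apply Finset.card_le_card
    intro p hp
    rw [Finset.mem_filter, Finset.mem_Icc] at hp
    rw [Finset.mem_filter, Finset.mem_range]
    refine ⟨by omega, ?_⟩
    rw [cv_F p r S hS, hL p hp.2.1 hp.2.2]
    simp
  have h4 := few (fun n => (F r n : ZMod 2)) x
  set K := ((Icc 1 x).filter fun k => (F r k : ZMod 2) ≠ 0).card with hK
  have h5 : ((range (x + 1)).filter fun n => (F r n : ZMod 2) ≠ 0).card ≤ K + 1 := by
    have : ((range (x + 1)).filter fun n => (F r n : ZMod 2) ≠ 0) ⊆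
        insert 0 ((Icc 1 x).filter fun k => (F r k : ZMod 2) ≠ 0) := by
      intro n hn
      rw [Finset.mem_filter, Finset.mem_range] at hn
      rw [Finset.mem_insert, Finset.mem_filter, Finset.mem_Icc]
      rcases Nat.eq_zero_or_pos n with h0 | h0
      · exact Or.inl h0
      · exact Or.inr ⟨⟨h0, by omega⟩, hn.2⟩
    exact le_trans (Finset.card_le_card this) (Finset.card_insert_le _ _)
  have h6 : ((Icc 1 x).filter fun p => p.Prime ∧ p % 20 = 1).card ≤ (2 * Nat.sqrt x + 1) * (K + 1) :=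
    le_trans h3 (le_trans h4 (Nat.mul_le_mul_left _ h5))
  have hxr : (3 : ℝ) ≤ x := by exact_mod_cast hx3
  have hlog : 0 < Real.log x := Real.log_pos (by linarith)
  have hsq : (1 : ℝ) ≤ √x := by rw [Real.one_le_sqrt]; linarith
  have hns : (Nat.sqrt x : ℝ) ≤ √x := by
    rw [← Real.nat_floor_real_sqrt_eq_nat_sqrt]
    exact Nat.floor_le (Real.sqrt_nonneg _)
  have hss : √x * √x = x := Real.mul_self_sqrt (by linarith)
  have h7 : c * x / Real.log x ≤ 3 * √x * (K + 1) := by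
    refine le_trans h1 ?_
    have : (((Icc 1 x).filter fun p => p.Prime ∧ p % 20 = 1).card : ℝ) ≤ (2 * Nat.sqrt x + 1) * (K + 1) := by
      exact_mod_cast h6
    refine le_trans this ?_
    apply mul_le_mul_of_nonneg_right _ (by positivity)
    linarith
  rw [div_le_iff₀ hlog] at h7 ⊢
  have h8 : c * √x ≤ 3 * (K + 1) * Real.log x := by
    have h9 : (c * √x) * √x ≤ (3 * (K + 1) * Real.log x) * √x := by
      calc (c * √x) * √x = c * x := by rw [mul_assoc, hss]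
        _ ≤ 3 * √x * (K + 1) * Real.log x := h7
        _ = _ := by ring
    exact le_of_mul_le_mul_right h9 (by linarith)
  -- `6 log x ≤ c √x`
  have h10 : 6 * Real.log x ≤ c * √x := by linarith
  nlinarith [h8, h10, hlog]
-- END main_odd

-- BEGIN main_even
private theorem main_even_z (a : ZMod 2) : a + 1 ≠ 0 ↔ a = 0 := by
  revert a; decide

/-- `few` with `f = F r + 1`: `cv f N = Lc S N + ∑ ee = 1` in `ZMod 2` if `Lc S N` is even and `N` is in a long gap (`cv_one`, `cv_F`, `gap`). By `cnt41`, `mt` (`ε = 1 / 8000`)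
and `L_pair` there are at least `X / 8000` such `N ≤ X`; `2 √X + 1 ≤ 3 √X`; the term `n = 0` costs `1`. -/
theorem main_even (r : ℤ) (h : r = 1 ∨ r = 3) : ∃ c : ℝ, 0 < c ∧ ∃ x₀ : ℕ, ∀ x : ℕ, x₀ ≤ x →
    c * √x ≤ (((Icc 1 x).filter fun k => (F r k : ZMod 2) = 0).card : ℝ) := by
  classical
  obtain ⟨S, hS⟩ : ∃ S : Finset ℕ, (r = 1 ∧ S = S1) ∨ (r = 3 ∧ S = S3) := by
    rcases h with h | h
    · exact ⟨S1, Or.inl ⟨h, rfl⟩⟩
    · exact ⟨S3, Or.inr ⟨h, rfl⟩⟩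
  obtain ⟨X₁, hX₁⟩ := cnt41
  obtain ⟨X₂, hX₂⟩ := mt (1 / 8000) (by norm_num)
  refine ⟨1 / 48000, by norm_num, max (max X₁ X₂) (48000 ^ 2), fun x hx => ?_⟩
  have h1 : X₁ ≤ x := le_trans (le_trans (le_max_left _ _) (le_max_left _ _)) hx
  have h2 : X₂ ≤ x := le_trans (le_trans (le_max_right _ _) (le_max_left _ _)) hx
  have h3 : 48000 ^ 2 ≤ x := le_trans (le_max_right _ _) hx
  have hA := hX₁ x h1
  have hB := hX₂ x h2
  set f : ℕ → ZMod 2 := fun n => (F r n : ZMod 2) with hf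
  have hsub : ((Icc 1 x).filter fun N => N % 1681 = 41 ∧ ∃ k, pe k 1 ≤ N ∧ N < pe (k + 1) 0) ⊆
      ((Icc 1 x).filter fun N => ∃ k c, k * c = 2 * N ∧ k ^ 2 ≤ 20000 * N ∧ c ^ 2 ≤ 20000 * N) ∪
      ((range (x + 1)).filter fun N => cv (fun n => f n + 1) N ≠ 0) := by
    intro N hN
    rw [mem_filter, mem_Icc] at hN
    obtain ⟨⟨hN1, hNx⟩, hN41, k, hk1, hk2⟩ := hN
    rw [mem_union]
    by_cases hex : ∃ k c, k * c = 2 * N ∧ k ^ 2 ≤ 20000 * N ∧ c ^ 2 ≤ 20000 * N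
    · left
      rw [mem_filter, mem_Icc]
      exact ⟨⟨hN1, hNx⟩, hex⟩
    · right
      rw [mem_filter, mem_range]
      refine ⟨by omega, ?_⟩
      have hE : Even (Lc S N) := by
        refine L_pair S N (by omega) (by omega) hN1 fun k c hkc hh => hex ⟨k, c, hkc, hh⟩
      rw [cv_one, gap N k hk1 hk2, cv_F N r S hS]
      have e1 : (Lc S N : ZMod 2) = 0 := by
        rw [ZMod.natCast_eq_zero_iff_even]
        exact hE
      have e2 : ((2 * k + 1 : ℕ) : ZMod 2) = 1 := by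
        have h20 : (2 : ZMod 2) = 0 := rfl
        push_cast
        rw [h20, zero_mul, zero_add]
      rw [e1, e2]
      decide
  have hc1 := (card_le_card hsub).trans (card_union_le _ _)
  have hc2 := few (fun n => f n + 1) x
  have hc3 : ((range (x + 1)).filter fun n => f n + 1 ≠ 0).card ≤
      ((Icc 1 x).filter fun k => (F r k : ZMod 2) = 0).card + 1 := by
    have : ((range (x + 1)).filter fun n => f n + 1 ≠ 0) ⊆
        insert 0 ((Icc 1 x).filter fun k => (F r k : ZMod 2) = 0) := by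
      intro n hn
      rw [mem_filter, mem_range, main_even_z] at hn
      rw [mem_insert, mem_filter, mem_Icc]
      by_cases h0 : n = 0
      · exact Or.inl h0
      · exact Or.inr ⟨⟨by omega, by omega⟩, hn.2⟩
    exact (card_le_card this).trans (card_insert_le _ _)
  set a := ((Icc 1 x).filter fun k => (F r k : ZMod 2) = 0).card with ha
  have hc4 : ((Icc 1 x).filter fun N => N % 1681 = 41 ∧ ∃ k, pe k 1 ≤ N ∧ N < pe (k + 1) 0).card ≤
      ((Icc 1 x).filter fun N => ∃ k c, k * c = 2 * N ∧ k ^ 2 ≤ 20000 * N ∧ c ^ 2 ≤ 20000 * N).card +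
      (2 * Nat.sqrt x + 1) * (a + 1) := by
    refine hc1.trans (Nat.add_le_add_left (hc2.trans ?_) _)
    exact Nat.mul_le_mul_left _ hc3
  have hc5 : (((Icc 1 x).filter fun N => N % 1681 = 41 ∧ ∃ k, pe k 1 ≤ N ∧ N < pe (k + 1) 0).card : ℝ) ≤
      (((Icc 1 x).filter fun N => ∃ k c, k * c = 2 * N ∧ k ^ 2 ≤ 20000 * N ∧ c ^ 2 ≤ 20000 * N).card : ℝ) +
      (2 * Nat.sqrt x + 1) * (a + 1) := by
    exact_mod_cast hc4
  have hx3 : (48000 : ℝ) ^ 2 ≤ x := by exact_mod_cast h3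
  have hs : (48000 : ℝ) ≤ √x := by
    rw [show (48000 : ℝ) = √(48000 ^ 2) from (Real.sqrt_sq (by norm_num)).symm]
    exact Real.sqrt_le_sqrt hx3
  have hs2 : √(x : ℝ) * √(x : ℝ) = x := Real.mul_self_sqrt (by positivity)
  have hns : (Nat.sqrt x : ℝ) ≤ √x := Real.nat_sqrt_le_real_sqrt
  have h6 : (x : ℝ) / 8000 ≤ (2 * √x + 1) * (a + 1) := by
    have : (2 * (Nat.sqrt x : ℝ) + 1) * (a + 1) ≤ (2 * √x + 1) * (a + 1) := by gcongr
    linarith
  have h7 : (2 * √(x : ℝ) + 1) * (a + 1) ≤ (3 * √x) * (a + 1) := by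
    have : (0 : ℝ) ≤ a := Nat.cast_nonneg a
    nlinarith
  have h8 : √(x : ℝ) * (√x / 8000) ≤ √x * (3 * (a + 1)) := by nlinarith
  have h9 : √(x : ℝ) / 8000 ≤ 3 * (a + 1) := le_of_mul_le_mul_left h8 (by linarith)
  linarith
-- END main_even

-- BEGIN nt_iff
private theorem nt_iff_aux (a b c : ℕ) (h : (a : ZMod 2) + (b : ZMod 2) = (c : ZMod 2)) :
    a ≡ b [MOD 2] ↔ (c : ZMod 2) = 0 := by
  rw [← h, ← ZMod.natCast_eq_natCast_iff a b 2]
  constructor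
  · intro hab
    rw [hab]
    exact CharTwo.add_self_eq_zero _
  · intro hab
    exact CharTwo.add_eq_zero.mp hab

/-- `nt_par`, `nt_mod` (`4 ≡ -1`, `2 ≡ -3` mod `5`); in `ZMod 2`, `a + b = 0` iff `a = b`; `ZMod.natCast_eq_natCast_iff` (`(ZMod.natCast_eq_natCast_iff a b 2)`). -/
theorem nt_iff (k : ℕ) (i j r : ℤ) (h : (i = 1 ∧ j = 4 ∧ r = 1) ∨ (i = 2 ∧ j = 3 ∧ r = 3)) :
    NT i 5 k ≡ NT j 5 k [MOD 2] ↔ (F r k : ZMod 2) = 0 := by
  rcases h with ⟨rfl, rfl, rfl⟩ | ⟨rfl, rfl, rfl⟩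
  · refine nt_iff_aux _ _ _ ?_
    rw [nt_mod k 4 (-1) (by decide)]
    exact nt_par k 1 (by norm_num)
  · refine nt_iff_aux _ _ _ ?_
    rw [nt_mod k 2 (-3) (by decide), add_comm]
    exact nt_par k 3 (by norm_num)
-- END nt_iff

-- BEGIN main
/-- `main_odd`, `main_even`, `nt_iff`; the smaller `c`, the larger `x₀`. -/
theorem main (i j : ℤ) (h : (i = 1 ∧ j = 4) ∨ (i = 2 ∧ j = 3)) : ∃ c : ℝ, 0 < c ∧ ∃ x₀ : ℕ, ∀ x : ℕ, x₀ ≤ x →
    c * √x ≤ (((Icc 1 x).filter fun k => NT i 5 k ≡ NT j 5 k [MOD 2]).card : ℝ) ∧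
    c * √x / Real.log x ≤ (((Icc 1 x).filter fun k => ¬ NT i 5 k ≡ NT j 5 k [MOD 2]).card : ℝ) := by
  obtain ⟨r, hr, hir⟩ : ∃ r : ℤ, (r = 1 ∨ r = 3) ∧
      ((i = 1 ∧ j = 4 ∧ r = 1) ∨ (i = 2 ∧ j = 3 ∧ r = 3)) := by
    rcases h with ⟨hi, hj⟩ | ⟨hi, hj⟩
    · exact ⟨1, Or.inl rfl, Or.inl ⟨hi, hj, rfl⟩⟩
    · exact ⟨3, Or.inr rfl, Or.inr ⟨hi, hj, rfl⟩⟩
  obtain ⟨c₁, hc₁, x₁, h₁⟩ := main_odd r hr
  obtain ⟨c₂, hc₂, x₂, h₂⟩ := main_even r hr
  refine ⟨min c₁ c₂, lt_min hc₁ hc₂, max 1 (max x₁ x₂), fun x hx => ?_⟩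
  have hx1 : 1 ≤ x := le_trans (le_max_left _ _) hx
  have hxa : x₁ ≤ x := le_trans ((le_max_left _ _).trans (le_max_right _ _)) hx
  have hxb : x₂ ≤ x := le_trans ((le_max_right _ _).trans (le_max_right _ _)) hx
  have hl : 0 ≤ Real.log x := Real.log_nonneg (by exact_mod_cast hx1)
  constructor
  · have e : (Icc 1 x).filter (fun k => NT i 5 k ≡ NT j 5 k [MOD 2]) =
        (Icc 1 x).filter (fun k => (F r k : ZMod 2) = 0) :=
      Finset.filter_congr fun k _ => nt_iff k i j r hir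
    rw [e]
    refine le_trans ?_ (h₂ x hxb)
    gcongr
    exact min_le_right _ _
  · have e : (Icc 1 x).filter (fun k => ¬ NT i 5 k ≡ NT j 5 k [MOD 2]) =
        (Icc 1 x).filter (fun k => (F r k : ZMod 2) ≠ 0) :=
      Finset.filter_congr fun k _ => not_congr (nt_iff k i j r hir)
    rw [e]
    refine le_trans ?_ (h₁ x hxa)
    gcongr
    exact min_le_left _ _
-- END main

end Ntp
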