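import Pool.Agent.Ntp.Fin

/-!
# Both parities outside the residue classes of Mao's identities
-/

set_option autoImplicit false

namespace Ntp

open Finset

-- BEGIN ee_mod
private theorem ee_mod_pe (k : ℕ) (hk : 1 ≤ k) : pe k 0 % 5 = 0 ∨ pe k 0 % 5 = 1 ∨ pe k 0 % 5 = 2 := by
  obtain ⟨j, rfl⟩ : ∃ j, k = j + 1 := ⟨k - 1, by omega⟩
  have h1 : pe (j + 1) 0 = (j + 1) * (3 * j + 2) / 2 := by
    unfold pe
    rw [Nat.mul_zero, Nat.add_zero]
    have : 3 * (j + 1) - 1 = 3 * j + 2 := by omega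
    rw [this]
  rw [h1, ← Nat.mod_mul_right_div_self]
  have h3 : (j + 1) * (3 * j + 2) % (2 * 5) = ((j % 10 + 1) * (3 * (j % 10) + 2)) % 10 := by
    have e1 : (j + 1) * (3 * j + 2) ≡ (j % 10 + 1) * (3 * (j % 10) + 2) [MOD 10] := by
      have hj : j ≡ j % 10 [MOD 10] := (Nat.mod_modEq j 10).symm
      exact Nat.ModEq.mul (hj.add_right 1) ((hj.mul_left 3).add_right 2)
    exact e1
  rw [h3]
  have hlt : j % 10 < 10 := Nat.mod_lt _ (by norm_num)
  generalize j % 10 = i at hlt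
  interval_cases i <;> norm_num

private theorem ee_mod_pe1 (k : ℕ) (hk : 1 ≤ k) : pe k 1 % 5 = 0 ∨ pe k 1 % 5 = 1 ∨ pe k 1 % 5 = 2 := by
  obtain ⟨j, rfl⟩ : ∃ j, k = j + 1 := ⟨k - 1, by omega⟩
  have h0 : ∀ m : ℕ, m * 2 / 2 = m := fun m => Nat.mul_div_cancel m (by norm_num)
  have h1 : pe (j + 1) 1 = (j + 1) * (3 * j + 4) / 2 := by
    unfold pe
    have : 3 * (j + 1) - 1 = 3 * j + 2 := by omega
    rw [this, Nat.mul_one]
    have h2 : (j + 1) * (3 * j + 4) = (j + 1) * (3 * j + 2) + (j + 1) * 2 := by ring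
    rw [h2, Nat.add_mul_div_right _ _ (by norm_num)]
  rw [h1, ← Nat.mod_mul_right_div_self]
  have h3 : (j + 1) * (3 * j + 4) % (2 * 5) = ((j % 10 + 1) * (3 * (j % 10) + 4)) % 10 := by
    have e1 : (j + 1) * (3 * j + 4) ≡ (j % 10 + 1) * (3 * (j % 10) + 4) [MOD 10] := by
      have hj : j ≡ j % 10 [MOD 10] := (Nat.mod_modEq j 10).symm
      exact Nat.ModEq.mul (hj.add_right 1) ((hj.mul_left 3).add_right 4)
    exact e1
  rw [h3]
  have hlt : j % 10 < 10 := Nat.mod_lt _ (by norm_num)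
  generalize j % 10 = i at hlt
  interval_cases i <;> norm_num

/-- Generalised pentagonal numbers are `0`, `1` or `2` mod `5`. -/
theorem ee_mod (M : ℕ) (h : (ee M : ZMod 2) ≠ 0) : M % 5 = 0 ∨ M % 5 = 1 ∨ M % 5 = 2 := by
  have hee : ee M ≠ 0 := by
    intro h0
    rw [h0, Nat.cast_zero] at h
    exact h rfl
  by_cases h0 : M = 0
  · left; rw [h0]
  by_cases h1 : ((Icc 1 M).filter fun k => pe k 0 = M).Nonempty
  · obtain ⟨k, hk1⟩ := h1
    rw [mem_filter, mem_Icc] at hk1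
    rw [← hk1.2]
    exact ee_mod_pe k hk1.1.1
  by_cases h2 : ((Icc 1 M).filter fun k => pe k 1 = M).Nonempty
  · obtain ⟨k, hk1⟩ := h2
    rw [mem_filter, mem_Icc] at hk1
    rw [← hk1.2]
    exact ee_mod_pe1 k hk1.1.1
  · exfalso
    rw [not_nonempty_iff_eq_empty] at h1 h2
    apply hee
    unfold ee
    rw [if_neg h0, h1, h2, card_empty]
-- END ee_mod

-- BEGIN few5
/-- `few` with residues mod `5`: the `n = N - M` with `N ≡ a` and `M ≡ 0, 1, 2` lie in the classes of `T`. -/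
theorem few5 (f : ℕ → ZMod 2) (X a : ℕ) (T : Finset ℕ)
    (hT : ∀ n M : ℕ, (n + M) % 5 = a → (M % 5 = 0 ∨ M % 5 = 1 ∨ M % 5 = 2) → n % 5 ∈ T) :
    ((range (X + 1)).filter fun N => N % 5 = a ∧ cv f N ≠ 0).card ≤
    (2 * Nat.sqrt X + 1) * ((range (X + 1)).filter fun n => n % 5 ∈ T ∧ f n ≠ 0).card := by
  have hsub : ((range (X + 1)).filter fun N => N % 5 = a ∧ cv f N ≠ 0) ⊆
      (((range (X + 1)).filter fun M => (ee M : ZMod 2) ≠ 0) ×ˢ
        ((range (X + 1)).filter fun n => n % 5 ∈ T ∧ f n ≠ 0)).image (fun x => x.1 + x.2) := by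
    intro N hN
    rw [mem_filter, mem_range] at hN
    obtain ⟨hNX, hNa, hne⟩ := hN
    unfold cv at hne
    obtain ⟨M, hM, hMne⟩ := Finset.exists_ne_zero_of_sum_ne_zero hne
    rw [mem_range] at hM
    have h1 : (ee M : ZMod 2) ≠ 0 := left_ne_zero_of_mul hMne
    have h2 : f (N - M) ≠ 0 := right_ne_zero_of_mul hMne
    have h3 : (N - M) % 5 ∈ T := by
      apply hT (N - M) M _ (ee_mod M h1)
      have : N - M + M = N := by omega
      rw [this]
      exact hNa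
    rw [mem_image]
    refine ⟨(M, N - M), ?_, ?_⟩
    · rw [mem_product, mem_filter, mem_filter, mem_range, mem_range]
      exact ⟨⟨by omega, h1⟩, ⟨by omega, h3, h2⟩⟩
    · show M + (N - M) = N
      omega
  refine (card_le_card hsub).trans (card_image_le.trans ?_)
  rw [card_product]
  exact Nat.mul_le_mul_right _ (ee_card X)
-- END few5

-- BEGIN L5
private theorem L5_prime_set (S : Finset ℕ) (p : ℕ) (hp : p.Prime) (h : p % 20 = 7 ∨ p % 20 = 13) (k : ℕ) :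
    k ∈ ((Icc 1 p).filter fun k => k ∣ 2 * p ∧ 3 * k + 1 ≤ 2 * p / k ∧
      (2 * p / k - (3 * k - 1)) % 2 = 0 ∧ ((2 * p / k - (3 * k - 1)) / 2) % 10 ∈ S) ↔
      (k = 1 ∧ (p - 1) % 10 ∈ S) ∨ (k = 2 ∧ 7 ≤ p ∧ ((p - 5) / 2) % 10 ∈ S) := by
  have hp2 := hp.two_le
  rw [Finset.mem_filter, Finset.mem_Icc]
  constructor
  · rintro ⟨⟨h1, h2⟩, h3, h4, h5, h6⟩
    by_cases hk : p ∣ k
    · have hkp : k = p := le_antisymm h2 (Nat.le_of_dvd (by omega) hk)
      rw [hkp, Nat.mul_div_cancel _ (by omega)] at h4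
      omega
    · have hco : Nat.Coprime k p := ((Nat.Prime.coprime_iff_not_dvd hp).2 hk).symm
      have h7 : k ∣ 2 := hco.dvd_of_dvd_mul_right h3
      rcases (Nat.dvd_prime Nat.prime_two).1 h7 with rfl | rfl
      · left
        refine ⟨rfl, ?_⟩
        rw [Nat.div_one] at h6
        have h8 : (2 * p - (3 * 1 - 1)) / 2 = p - 1 := by omega
        rwa [h8] at h6
      · right
        rw [Nat.mul_div_cancel_left p (by norm_num)] at h6 h4
        exact ⟨rfl, by omega, h6⟩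
  · rintro (⟨rfl, h0⟩ | ⟨rfl, h7, h0⟩)
    · rw [Nat.div_one]
      have h8 : (2 * p - (3 * 1 - 1)) / 2 = p - 1 := by omega
      rw [h8]
      exact ⟨⟨le_refl 1, by omega⟩, one_dvd _, by omega, by omega, h0⟩
    · rw [Nat.mul_div_cancel_left p (by norm_num)]
      exact ⟨⟨by norm_num, by omega⟩, Dvd.intro p rfl, by omega, by omega, h0⟩

/-- `p ≡ 7` mod `20`: only `k = 2` counts. -/
theorem L5_7 (p : ℕ) (hp : p.Prime) (h : p % 20 = 7) : Lc S1 p = 1 := by
  have h1 := hp.one_lt.le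
  rw [L_iff S1 p h1, Finset.card_eq_one]
  refine ⟨2, Finset.ext fun k => ?_⟩
  rw [L5_prime_set S1 p hp (Or.inl h) k, Finset.mem_singleton]
  have e1 : (p - 1) % 10 = 6 := by omega
  have e2 : ((p - 5) / 2) % 10 = 1 := by omega
  have e3 : 7 ≤ p := by omega
  rw [e1, e2]
  have h2 : 6 ∉ S1 := by decide
  have h3 : 1 ∈ S1 := by decide
  tauto

/-- `p ≡ 13` mod `20`: only `k = 1` counts. -/
theorem L5_13 (p : ℕ) (hp : p.Prime) (h : p % 20 = 13) : Lc S1 p = 1 := by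
  have h1 := hp.one_lt.le
  rw [L_iff S1 p h1, Finset.card_eq_one]
  refine ⟨1, Finset.ext fun k => ?_⟩
  rw [L5_prime_set S1 p hp (Or.inr h) k, Finset.mem_singleton]
  have e1 : (p - 1) % 10 = 2 := by omega
  have e2 : ((p - 5) / 2) % 10 = 4 := by omega
  rw [e1, e2]
  have h2 : 2 ∈ S1 := by decide
  have h3 : 4 ∉ S1 := by decide
  tauto

/-- `p ≡ 9` mod `20`: for `N = 5 p` only `k = 1` counts. -/
theorem L5_9 (p : ℕ) (hp : p.Prime) (h : p % 20 = 9) : Lc S3 (5 * p) = 1 := by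
  have hp2 := hp.two_le
  rw [L_iff S3 (5 * p) (by omega), Finset.card_eq_one]
  refine ⟨1, Finset.ext fun k => ?_⟩
  rw [Finset.mem_singleton, Finset.mem_filter, Finset.mem_Icc]
  have h10 : 2 * (5 * p) = 10 * p := by ring
  rw [h10]
  constructor
  · rintro ⟨⟨h1, h2⟩, h3, h4, h5, h6⟩
    by_cases hk : p ∣ k
    · exfalso
      have hkp : p ≤ k := Nat.le_of_dvd (by omega) hk
      have h8 : 10 * p / k ≤ 10 := by
        rw [← Nat.lt_succ_iff, Nat.div_lt_iff_lt_mul (by omega)]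
        nlinarith
      omega
    · have hco : Nat.Coprime k p := ((Nat.Prime.coprime_iff_not_dvd hp).2 hk).symm
      have h7 : k ∣ 10 := hco.dvd_of_dvd_mul_right h3
      have h8 : k ≤ 10 := Nat.le_of_dvd (by norm_num) h7
      have hS : ∀ m : ℕ, m ∈ S3 ↔ m = 3 ∨ m = 4 ∨ m = 7 ∨ m = 8 := by
        intro m
        simp [S3]
      rw [hS] at h6
      interval_cases k
      · rfl
      · exfalso
        have : 10 * p / 2 = 5 * p := by omega
        rw [this] at h4 h5 h6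
        omega
      · exfalso; revert h7; decide
      · exfalso; revert h7; decide
      · exfalso
        have : 10 * p / 5 = 2 * p := by omega
        rw [this] at h4 h5 h6
        omega
      · exfalso; revert h7; decide
      · exfalso; revert h7; decide
      · exfalso; revert h7; decide
      · exfalso; revert h7; decide
      · exfalso
        have : 10 * p / 10 = p := by omega
        rw [this] at h4 h5 h6
        omega
  · rintro rfl
    rw [Nat.div_one]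
    have h8 : (10 * p - (3 * 1 - 1)) / 2 % 10 = 4 := by omega
    rw [h8]
    exact ⟨⟨le_refl 1, by omega⟩, one_dvd _, by omega, by omega, by decide⟩
-- END L5

-- BEGIN in_int5
/-- An interval `[a, a + n)` contains at least `n / 8405 - 1` numbers `≡ b` mod `8405`. -/
theorem in_int5 (b : ℕ) (hb : b < 8405) (a n : ℕ) : (n : ℝ) / 8405 - 1 ≤ (((Ico a (a + n)).filter fun N => N % 8405 = b).card : ℝ) := by
  obtain ⟨c, hc1, hc2⟩ : ∃ c : ℕ, c < 8405 ∧ (a + c) % 8405 = b :=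
    ⟨(b + 8405 - a % 8405) % 8405, by omega, by omega⟩
  have hsub : (range (n / 8405)).image (fun j => a + c + 8405 * j) ⊆
      (Ico a (a + n)).filter fun N => N % 8405 = b := by
    intro N hN
    rw [mem_image] at hN
    obtain ⟨j, hj, rfl⟩ := hN
    rw [mem_range] at hj
    rw [mem_filter, mem_Ico]
    refine ⟨⟨by omega, by omega⟩, by omega⟩
  have hcard : ((range (n / 8405)).image (fun j => a + c + 8405 * j)).card = n / 8405 := by
    rw [card_image_of_injective _ (fun i j (h : a + c + 8405 * i = a + c + 8405 * j) => by omega),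
      card_range]
  have h1 := card_le_card hsub
  rw [hcard] at h1
  have h2 : n ≤ 8405 * (n / 8405) + 8405 := by omega
  have h3 : (n : ℝ) ≤ 8405 * ((n / 8405 : ℕ) : ℝ) + 8405 := by exact_mod_cast h2
  have h4 : ((n / 8405 : ℕ) : ℝ) ≤ (((Ico a (a + n)).filter fun N => N % 8405 = b).card : ℝ) := by
    exact_mod_cast h1
  have h5 : (n : ℝ) / 8405 ≤ ((n / 8405 : ℕ) : ℝ) + 1 := by
    rw [div_le_iff₀ (by norm_num)]
    linarith
  linarith
-- END in_int5

-- BEGIN cnt5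
private theorem cnt5_even (k : ℕ) : 2 ∣ k * (3 * k - 1) := by
  obtain ⟨c, rfl | rfl⟩ := Nat.even_or_odd' k
  · exact Dvd.dvd.mul_right ⟨c, rfl⟩ _
  · exact Dvd.dvd.mul_left ⟨3 * c + 1, by omega⟩ _

private theorem cnt5_pe (k r : ℕ) : 2 * pe k r = k * (3 * k - 1) + 2 * (k * r) := by
  have := Nat.mul_div_cancel' (cnt5_even k)
  unfold pe
  omega

private theorem cnt5_pe0 (k : ℕ) : 2 * pe (k + 1) 0 = 3 * k ^ 2 + 5 * k + 2 := by
  rw [cnt5_pe]
  have : 3 * (k + 1) - 1 = 3 * k + 2 := by omega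
  rw [this]; ring

private theorem cnt5_pe1 (k : ℕ) : 2 * pe k 1 = 3 * k ^ 2 + k := by
  rw [cnt5_pe]
  rcases k with _ | k
  · rfl
  · have : 3 * (k + 1) - 1 = 3 * k + 2 := by omega
    rw [this]; ring

private theorem cnt5_step (k : ℕ) : pe (k + 1) 0 = pe k 1 + (2 * k + 1) := by
  have h1 := cnt5_pe0 k
  have h2 := cnt5_pe1 k
  omega

private theorem cnt5_lt {k l : ℕ} (h : k < l) : pe (k + 1) 0 ≤ pe l 1 := by
  have h1 := cnt5_pe0 k
  have h2 := cnt5_pe1 l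
  have : (k + 1) ^ 2 ≤ l ^ 2 := Nat.pow_le_pow_left h 2
  nlinarith

open Classical in
/-- The long gaps `[pe k 1, pe (k + 1) 0)`, `k < K`, have `2 k + 1` members and are disjoint; with `K = Nat.sqrt (X / 2)` they lie in `[0, X]`
(`pe K 0 ≤ 3 / 2 K ^ 2`), so by `in_int5` the number is at least `K ^ 2 / 8405 - K ≥ X / 20000` for large `X`. -/
theorem cnt5 (b : ℕ) (hb0 : 0 < b) (hb : b < 8405) : ∃ X₀ : ℕ, ∀ X : ℕ, X₀ ≤ X → (X : ℝ) / 20000 ≤
    (((Icc 1 X).filter fun N => N % 8405 = b ∧ ∃ k, pe k 1 ≤ N ∧ N < pe (k + 1) 0).card : ℝ) := by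
  refine ⟨7200000000, fun X hX => ?_⟩
  obtain ⟨K, hK⟩ : ∃ K, K = Nat.sqrt (X / 2) := ⟨_, rfl⟩
  have hK1 : 60000 ≤ K := by rw [hK, Nat.le_sqrt']; omega
  have hK2 : K ^ 2 ≤ X / 2 := by rw [hK]; exact Nat.sqrt_le' _
  have hK3 : X / 2 < (K + 1) ^ 2 := by rw [hK]; exact Nat.lt_succ_sqrt' _
  have hsub : ((range K).biUnion fun k =>
      (Ico (pe k 1) (pe k 1 + (2 * k + 1))).filter fun N => N % 8405 = b) ⊆
      (Icc 1 X).filter fun N => N % 8405 = b ∧ ∃ k, pe k 1 ≤ N ∧ N < pe (k + 1) 0 := by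
    intro N hN
    rw [mem_biUnion] at hN
    obtain ⟨k, hk, hN⟩ := hN
    rw [mem_range] at hk
    rw [mem_filter, mem_Ico] at hN
    rw [mem_filter, mem_Icc]
    refine ⟨⟨by omega, ?_⟩, hN.2, k, hN.1.1, by rw [cnt5_step]; exact hN.1.2⟩
    have h1 := cnt5_lt hk
    have h2 := cnt5_pe1 K
    have h3 := cnt5_step k
    have h4 : K ≤ K ^ 2 := Nat.le_self_pow (by norm_num) K
    omega
  have hdis : (range K : Set ℕ).PairwiseDisjoint fun k =>
      (Ico (pe k 1) (pe k 1 + (2 * k + 1))).filter fun N => N % 8405 = b := by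
    have aux : ∀ k l, k < l → Disjoint ((Ico (pe k 1) (pe k 1 + (2 * k + 1))).filter fun N => N % 8405 = b)
        ((Ico (pe l 1) (pe l 1 + (2 * l + 1))).filter fun N => N % 8405 = b) := by
      intro k l hkl
      rw [disjoint_left]
      intro N h1 h2
      rw [mem_filter, mem_Ico] at h1 h2
      have h3 := cnt5_lt hkl
      have h4 := cnt5_step k
      omega
    intro k _ l _ hkl
    rcases lt_or_gt_of_ne hkl with h | h
    · exact aux k l h
    · exact (aux l k h).symm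
  have hcard := card_le_card hsub
  rw [card_biUnion hdis] at hcard
  have hsum : ∑ k ∈ range K, (((2 * k + 1 : ℕ) : ℝ) / 8405 - 1) ≤
      ((∑ k ∈ range K, ((Ico (pe k 1) (pe k 1 + (2 * k + 1))).filter fun N => N % 8405 = b).card : ℕ) : ℝ) := by
    push_cast
    refine sum_le_sum fun k _ => ?_
    have := in_int5 b hb (pe k 1) (2 * k + 1)
    push_cast at this
    exact this
  have hval : ∀ n : ℕ, ∑ k ∈ range n, (((2 * k + 1 : ℕ) : ℝ) / 8405 - 1) = (n : ℝ) ^ 2 / 8405 - n := by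
    intro n
    induction n with
    | zero => simp
    | succ n ih => rw [sum_range_succ, ih]; push_cast; ring
  rw [hval] at hsum
  have hcard' : ((∑ k ∈ range K, ((Ico (pe k 1) (pe k 1 + (2 * k + 1))).filter fun N => N % 8405 = b).card : ℕ) : ℝ) ≤
      (((Icc 1 X).filter fun N => N % 8405 = b ∧ ∃ k, pe k 1 ≤ N ∧ N < pe (k + 1) 0).card : ℝ) := by
    exact_mod_cast hcard
  refine le_trans ?_ (hsum.trans hcard')
  have hX' : X ≤ 2 * (K + 1) ^ 2 := by omega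
  have hXr : (X : ℝ) ≤ 2 * ((K : ℝ) + 1) ^ 2 := by exact_mod_cast hX'
  have hKr : (60000 : ℝ) ≤ K := by exact_mod_cast hK1
  nlinarith [mul_le_mul hKr hKr (by norm_num) (by linarith : (0 : ℝ) ≤ K)]
-- END cnt5

-- BEGIN pap5
/-- Prime number theorem for the classes `7`, `9`, `13` mod `20` as a lower bound, as `pap`. -/
theorem pap5 (b : ℕ) (hb : b = 7 ∨ b = 9 ∨ b = 13) : ∃ c : ℝ, 0 < c ∧ ∃ x₀ : ℕ, ∀ x : ℕ, x₀ ≤ x →
    c * x / Real.log x ≤ (((Icc 1 x).filter fun p => p.Prime ∧ p % 20 = b).card : ℝ) := by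
  obtain ⟨C, hC⟩ := Pool.Agent.SWz.swlam 1
  have e1 : ∀ᶠ y : ℝ in Filter.atTop, 64 * Real.log y ≤ √y := by
    have h := (isLittleO_log_rpow_atTop (show (0 : ℝ) < 1 / 2 by norm_num)).bound
      (show (0 : ℝ) < 1 / 64 by norm_num)
    filter_upwards [h, Filter.eventually_ge_atTop (1 : ℝ)] with y hy hy1
    rw [Real.norm_of_nonneg (Real.log_nonneg hy1), Real.norm_of_nonneg (by positivity)] at hy
    rw [Real.sqrt_eq_rpow]
    linarith
  have e2 : ∀ᶠ y : ℝ in Filter.atTop, 16 * |C| + 1 ≤ Real.log y :=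
    Real.tendsto_log_atTop.eventually_ge_atTop _
  obtain ⟨x₁, hx₁⟩ := Filter.eventually_atTop.mp (e1.and e2)
  refine ⟨1 / 32, by norm_num, max 2 (Nat.ceil x₁), fun x hx => ?_⟩
  have hx2 : 2 ≤ x := le_trans (le_max_left _ _) hx
  have hxx : x₁ ≤ (x : ℝ) := le_trans (Nat.le_ceil x₁) (by exact_mod_cast le_trans (le_max_right _ _) hx)
  obtain ⟨h1, h2⟩ := hx₁ x hxx
  have hx2' : (2 : ℝ) ≤ x := by exact_mod_cast hx2
  have hlog : 0 < Real.log x := Real.log_pos (by linarith)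
  have hcop : IsCoprime (b : ℤ) ((20 : ℕ) : ℤ) := by
    rw [Nat.isCoprime_iff_coprime]
    rcases hb with rfl | rfl | rfl <;> decide
  have h3 := hC x hx2' 20 (b : ℤ) (by norm_num) hcop
  have htot : (20 : ℕ).totient = 8 := by decide
  rw [htot, pow_one, Nat.floor_natCast] at h3
  set S := ∑ n ∈ Icc 1 x, if ((20 : ℕ) : ℤ) ∣ (n : ℤ) - (b : ℤ) then ArithmeticFunction.vonMangoldt n else 0 with hS
  have h4 : (x : ℝ) / 16 ≤ S := by
    have h5 := (abs_le.mp h3).1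
    have h6 : C * x / Real.log x ≤ x / 16 := by
      rw [div_le_iff₀ hlog]
      have : C ≤ |C| := le_abs_self C
      nlinarith
    push_cast at h5
    linarith
  have h7 : S ≤ Real.log x * (((Icc 1 x).filter fun p => p.Prime ∧ p % 20 = b).card : ℝ) +
      2 * √x * Real.log x := by
    have h8 : S ≤ ∑ n ∈ Icc 1 x, ((if n.Prime ∧ n % 20 = b then Real.log x else 0) +
        (if ¬ n.Prime then ArithmeticFunction.vonMangoldt n else 0)) := by
      refine Finset.sum_le_sum fun n hn => ?_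
      rw [Finset.mem_Icc] at hn
      have hL : 0 ≤ ArithmeticFunction.vonMangoldt n := ArithmeticFunction.vonMangoldt_nonneg
      by_cases hp : n.Prime
      · have hLp : ArithmeticFunction.vonMangoldt n ≤ Real.log x := by
          rw [ArithmeticFunction.vonMangoldt_apply_prime hp]
          exact Real.log_le_log (by exact_mod_cast hn.1) (by exact_mod_cast hn.2)
        by_cases hd : ((20 : ℕ) : ℤ) ∣ (n : ℤ) - (b : ℤ)
        · have hm : n % 20 = b := by push_cast at hd; omega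
          simp only [if_pos hd, hp, hm, and_self, if_true, not_true_eq_false, if_false, add_zero]
          exact hLp
        · rw [if_neg hd]
          have : 0 ≤ (if n.Prime ∧ n % 20 = b then Real.log x else 0) := by
            split_ifs <;> [exact hlog.le; exact le_rfl]
          simp only [hp, not_true_eq_false, if_false, add_zero]
          simpa [hp] using this
      · simp only [hp, false_and, if_false, not_false_eq_true, if_true, zero_add]
        split_ifs <;> [exact le_rfl; exact hL]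
    refine h8.trans ?_
    rw [Finset.sum_add_distrib]
    refine add_le_add ?_ ?_
    · rw [← Finset.sum_filter, Finset.sum_const, nsmul_eq_mul, mul_comm]
    · have h9 := Chebyshev.psi_sub_theta_le (x := (x : ℝ)) (by linarith)
      have h10 := Chebyshev.psi_sub_theta_eq_sum_not_prime (x : ℝ)
      rw [h10] at h9
      refine le_trans (le_of_eq ?_) h9
      rw [← Finset.sum_filter, Nat.floor_natCast]
      refine Finset.sum_congr ?_ fun _ _ => rfl
      ext n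
      simp only [Finset.mem_filter, Finset.mem_Icc, Finset.mem_Ioc]
      constructor
      · rintro ⟨⟨a, b⟩, c⟩; exact ⟨⟨by omega, b⟩, c⟩
      · rintro ⟨⟨a, b⟩, c⟩; exact ⟨⟨by omega, b⟩, c⟩
  have h11 : 2 * √x * Real.log x ≤ (x : ℝ) / 32 := by
    have hs : √(x : ℝ) * √(x : ℝ) = x := Real.mul_self_sqrt (by linarith)
    have hs0 : 0 ≤ √(x : ℝ) := Real.sqrt_nonneg _
    nlinarith
  rw [div_le_iff₀ hlog]
  linarith [mul_comm (Real.log x) (((Icc 1 x).filter fun p => p.Prime ∧ p % 20 = b).card : ℝ)]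
-- END pap5

/-- The pair `(i, j)`, the rank class `r` mod `10`, the set `S` of `L`, the class `a` mod `5` of `N` and the classes `T` mod `5` of `n`. -/
def Cs (i j r : ℤ) (S : Finset ℕ) (a : ℕ) (T : Finset ℕ) : Prop :=
  (i = 1 ∧ j = 4 ∧ r = 1 ∧ S = S1 ∧ a = 2 ∧ T = {0, 1, 2}) ∨
  (i = 1 ∧ j = 4 ∧ r = 1 ∧ S = S1 ∧ a = 3 ∧ T = {1, 2, 3}) ∨
  (i = 2 ∧ j = 3 ∧ r = 3 ∧ S = S3 ∧ a = 0 ∧ T = {0, 3, 4})

theorem Cs.rS {i j r : ℤ} {S : Finset ℕ} {a : ℕ} {T : Finset ℕ} (h : Cs i j r S a T) :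
    (r = 1 ∧ S = S1) ∨ (r = 3 ∧ S = S3) := by
  rcases h with ⟨_, _, h1, h2, _⟩ | ⟨_, _, h1, h2, _⟩ | ⟨_, _, h1, h2, _⟩
  · exact Or.inl ⟨h1, h2⟩
  · exact Or.inl ⟨h1, h2⟩
  · exact Or.inr ⟨h1, h2⟩

theorem Cs.hT {i j r : ℤ} {S : Finset ℕ} {a : ℕ} {T : Finset ℕ} (h : Cs i j r S a T) (n M : ℕ)
    (h1 : (n + M) % 5 = a) (h2 : M % 5 = 0 ∨ M % 5 = 1 ∨ M % 5 = 2) : n % 5 ∈ T := by
  rcases h with ⟨_, _, _, _, h3, rfl⟩ | ⟨_, _, _, _, h3, rfl⟩ | ⟨_, _, _, _, h3, rfl⟩ <;>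
  · simp only [mem_insert, mem_singleton]
    omega

-- BEGIN src
/-- Many `N ≡ a` mod `5` with odd `L`. -/
theorem src {i j r : ℤ} {S : Finset ℕ} {a : ℕ} {T : Finset ℕ} (h : Cs i j r S a T) :
    ∃ c : ℝ, 0 < c ∧ ∃ x₀ : ℕ, ∀ x : ℕ, x₀ ≤ x →
    c * x / Real.log x ≤ (((range (x + 1)).filter fun N => N % 5 = a ∧ (Lc S N : ZMod 2) ≠ 0).card : ℝ) := by
  have one : ((1 : ℕ) : ZMod 2) ≠ 0 := by decide
  rcases h with ⟨_, _, _, rfl, rfl, _⟩ | ⟨_, _, _, rfl, rfl, _⟩ | ⟨_, _, _, rfl, rfl, _⟩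
  · obtain ⟨c, hc, x₀, hx₀⟩ := pap5 7 (by norm_num)
    refine ⟨c, hc, x₀, fun x hx => (hx₀ x hx).trans ?_⟩
    have : ((Icc 1 x).filter fun p => p.Prime ∧ p % 20 = 7) ⊆
        ((range (x + 1)).filter fun N => N % 5 = 2 ∧ (Lc S1 N : ZMod 2) ≠ 0) := by
      intro p hp
      rw [mem_filter, mem_Icc] at hp
      rw [mem_filter, mem_range, L5_7 p hp.2.1 hp.2.2]
      exact ⟨by omega, by omega, one⟩
    exact_mod_cast card_le_card this
  · obtain ⟨c, hc, x₀, hx₀⟩ := pap5 13 (by norm_num)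
    refine ⟨c, hc, x₀, fun x hx => (hx₀ x hx).trans ?_⟩
    have : ((Icc 1 x).filter fun p => p.Prime ∧ p % 20 = 13) ⊆
        ((range (x + 1)).filter fun N => N % 5 = 3 ∧ (Lc S1 N : ZMod 2) ≠ 0) := by
      intro p hp
      rw [mem_filter, mem_Icc] at hp
      rw [mem_filter, mem_range, L5_13 p hp.2.1 hp.2.2]
      exact ⟨by omega, by omega, one⟩
    exact_mod_cast card_le_card this
  · obtain ⟨c, hc, x₀, hx₀⟩ := pap5 9 (by norm_num)
    refine ⟨c / 10, by positivity, 5 * x₀ + 50, fun x hx => ?_⟩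
    have h1 := hx₀ (x / 5) (by omega)
    have h2 : ((Icc 1 (x / 5)).filter fun p => p.Prime ∧ p % 20 = 9).card ≤
        ((range (x + 1)).filter fun N => N % 5 = 0 ∧ (Lc S3 N : ZMod 2) ≠ 0).card := by
      have h3 : (((Icc 1 (x / 5)).filter fun p => p.Prime ∧ p % 20 = 9).image fun p => 5 * p) ⊆
          ((range (x + 1)).filter fun N => N % 5 = 0 ∧ (Lc S3 N : ZMod 2) ≠ 0) := by
        intro N hN
        rw [mem_image] at hN
        obtain ⟨p, hp, rfl⟩ := hN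
        rw [mem_filter, mem_Icc] at hp
        rw [mem_filter, mem_range, L5_9 p hp.2.1 hp.2.2]
        exact ⟨by omega, by omega, one⟩
      have h4 := card_le_card h3
      rwa [card_image_of_injective _ (fun p q (h : 5 * p = 5 * q) => by omega)] at h4
    have h5 : (((Icc 1 (x / 5)).filter fun p => p.Prime ∧ p % 20 = 9).card : ℝ) ≤
        (((range (x + 1)).filter fun N => N % 5 = 0 ∧ (Lc S3 N : ZMod 2) ≠ 0).card : ℝ) := by
      exact_mod_cast h2
    refine le_trans ?_ (h1.trans h5)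
    have hy : x ≤ 10 * (x / 5) := by omega
    have hyr : (x : ℝ) ≤ 10 * ((x / 5 : ℕ) : ℝ) := by exact_mod_cast hy
    have hy1 : (2 : ℝ) ≤ ((x / 5 : ℕ) : ℝ) := by
      have : 2 ≤ x / 5 := by omega
      exact_mod_cast this
    have hyx : ((x / 5 : ℕ) : ℝ) ≤ x := by
      have : x / 5 ≤ x := Nat.div_le_self _ _
      exact_mod_cast this
    have hl : 0 < Real.log ((x / 5 : ℕ) : ℝ) := Real.log_pos (by linarith)
    have hl2 : Real.log ((x / 5 : ℕ) : ℝ) ≤ Real.log x := Real.log_le_log (by linarith) hyx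
    calc c / 10 * x / Real.log x ≤ c * ((x / 5 : ℕ) : ℝ) / Real.log x := by
          apply div_le_div_of_nonneg_right _ (by linarith)
          nlinarith
      _ ≤ c * ((x / 5 : ℕ) : ℝ) / Real.log ((x / 5 : ℕ) : ℝ) := by
          apply div_le_div_of_nonneg_left (by positivity) hl hl2
-- END src

-- BEGIN main_odd5
private theorem main_odd5_lim (c : ℝ) (hc : 0 < c) : ∃ x₀ : ℕ, ∀ x : ℕ, x₀ ≤ x → Real.log x ≤ c * √x := by
  have h1 := (isLittleO_log_rpow_atTop (r := (1/2 : ℝ)) (by norm_num)).bound hc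
  have h2 := h1.and (Filter.eventually_ge_atTop (1 : ℝ))
  rw [Filter.eventually_atTop] at h2
  obtain ⟨a, ha⟩ := h2
  refine ⟨⌈a⌉₊, fun x hx => ?_⟩
  have hax : a ≤ (x : ℝ) := le_trans (Nat.le_ceil a) (by exact_mod_cast hx)
  obtain ⟨h3, h4⟩ := ha x hax
  rw [Real.norm_eq_abs, Real.norm_eq_abs, ← Real.sqrt_eq_rpow] at h3
  rw [abs_of_nonneg (Real.sqrt_nonneg _)] at h3
  exact le_trans (le_abs_self _) h3

theorem main_odd5 {i j r : ℤ} {S : Finset ℕ} {a : ℕ} {T : Finset ℕ} (h : Cs i j r S a T) :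
    ∃ c : ℝ, 0 < c ∧ ∃ x₀ : ℕ, ∀ x : ℕ, x₀ ≤ x →
    c * √x / Real.log x ≤ (((Icc 1 x).filter fun k => k % 5 ∈ T ∧ (F r k : ZMod 2) ≠ 0).card : ℝ) := by
  obtain ⟨c, hc, x₀, hx₀⟩ := src h
  obtain ⟨x₁, hx₁⟩ := main_odd5_lim (c / 6) (by positivity)
  refine ⟨c / 6, by positivity, x₀ + x₁ + 3, fun x hx => ?_⟩
  have h1 := hx₀ x (by omega)
  have h2 := hx₁ x (by omega)
  have hx3 : 3 ≤ x := by omega
  have h3 : ((range (x + 1)).filter fun N => N % 5 = a ∧ (Lc S N : ZMod 2) ≠ 0).card ≤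
      ((range (x + 1)).filter fun N => N % 5 = a ∧ cv (fun n => (F r n : ZMod 2)) N ≠ 0).card := by
    apply Finset.card_le_card
    intro N hN
    rw [Finset.mem_filter] at hN ⊢
    rw [cv_F N r S h.rS]
    exact hN
  have h4 := few5 (fun n => (F r n : ZMod 2)) x a T h.hT
  set K := ((Icc 1 x).filter fun k => k % 5 ∈ T ∧ (F r k : ZMod 2) ≠ 0).card with hK
  have h5 : ((range (x + 1)).filter fun n => n % 5 ∈ T ∧ (F r n : ZMod 2) ≠ 0).card ≤ K + 1 := by
    have : ((range (x + 1)).filter fun n => n % 5 ∈ T ∧ (F r n : ZMod 2) ≠ 0) ⊆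
        insert 0 ((Icc 1 x).filter fun k => k % 5 ∈ T ∧ (F r k : ZMod 2) ≠ 0) := by
      intro n hn
      rw [Finset.mem_filter, Finset.mem_range] at hn
      rw [Finset.mem_insert, Finset.mem_filter, Finset.mem_Icc]
      rcases Nat.eq_zero_or_pos n with h0 | h0
      · exact Or.inl h0
      · exact Or.inr ⟨⟨h0, by omega⟩, hn.2⟩
    exact le_trans (Finset.card_le_card this) (Finset.card_insert_le _ _)
  have h6 : ((range (x + 1)).filter fun N => N % 5 = a ∧ (Lc S N : ZMod 2) ≠ 0).card ≤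
      (2 * Nat.sqrt x + 1) * (K + 1) :=
    le_trans h3 (le_trans h4 (Nat.mul_le_mul_left _ h5))
  have hxr : (3 : ℝ) ≤ x := by exact_mod_cast hx3
  have hlog : 0 < Real.log x := Real.log_pos (by linarith)
  have hsq : (1 : ℝ) ≤ √x := by rw [Real.one_le_sqrt]; linarith
  have hns : (Nat.sqrt x : ℝ) ≤ √x := Real.nat_sqrt_le_real_sqrt
  have hss : √x * √x = x := Real.mul_self_sqrt (by linarith)
  have h7 : c * x / Real.log x ≤ 3 * √x * (K + 1) := by
    refine le_trans h1 ?_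
    have : (((range (x + 1)).filter fun N => N % 5 = a ∧ (Lc S N : ZMod 2) ≠ 0).card : ℝ) ≤
        (2 * Nat.sqrt x + 1) * (K + 1) := by
      exact_mod_cast h6
    refine le_trans this ?_
    apply mul_le_mul_of_nonneg_right _ (by positivity)
    linarith
  rw [div_le_iff₀ hlog] at h7 ⊢
  have h8 : c * √x ≤ 3 * (K + 1) * Real.log x := by
    have h9 : (c * √x) * √x ≤ (3 * (K + 1) * Real.log x) * √x := by
      calc (c * √x) * √x = c * x := by rw [mul_assoc, hss]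
        _ ≤ 3 * √x * (K + 1) * Real.log x := h7
        _ = _ := by ring
    exact le_of_mul_le_mul_right h9 (by linarith)
  have h10 : 6 * Real.log x ≤ c * √x := by linarith
  nlinarith [h8, h10, hlog]
-- END main_odd5

-- BEGIN main_even5
private theorem main_even5_z (a : ZMod 2) : a + 1 ≠ 0 ↔ a = 0 := by
  revert a; decide

private theorem main_even5_b (a : ℕ) (ha : a < 5) :
    ∃ b < 8405, 0 < b ∧ ∀ N : ℕ, N % 8405 = b → N % 1681 = 41 ∧ N % 5 = a := by
  refine ⟨41 + 1681 * ((a + 4) % 5), by omega, by omega, fun N hN => ?_⟩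
  omega

theorem main_even5 {i j r : ℤ} {S : Finset ℕ} {a : ℕ} {T : Finset ℕ} (h : Cs i j r S a T) :
    ∃ c : ℝ, 0 < c ∧ ∃ x₀ : ℕ, ∀ x : ℕ, x₀ ≤ x →
    c * √x ≤ (((Icc 1 x).filter fun k => k % 5 ∈ T ∧ (F r k : ZMod 2) = 0).card : ℝ) := by
  classical
  have ha5 : a < 5 := by
    rcases h with ⟨_, _, _, _, h3, _⟩ | ⟨_, _, _, _, h3, _⟩ | ⟨_, _, _, _, h3, _⟩ <;> omega
  obtain ⟨b, hb, hb0, hbN⟩ := main_even5_b a ha5
  obtain ⟨X₁, hX₁⟩ := cnt5 b hb0 hb
  obtain ⟨X₂, hX₂⟩ := mt (1 / 40000) (by norm_num)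
  refine ⟨1 / 240000, by norm_num, max (max X₁ X₂) (240000 ^ 2), fun x hx => ?_⟩
  have h1 : X₁ ≤ x := le_trans (le_trans (le_max_left _ _) (le_max_left _ _)) hx
  have h2 : X₂ ≤ x := le_trans (le_trans (le_max_right _ _) (le_max_left _ _)) hx
  have h3 : 240000 ^ 2 ≤ x := le_trans (le_max_right _ _) hx
  have hA := hX₁ x h1
  have hB := hX₂ x h2
  set f : ℕ → ZMod 2 := fun n => (F r n : ZMod 2) with hf
  have hsub : ((Icc 1 x).filter fun N => N % 8405 = b ∧ ∃ k, pe k 1 ≤ N ∧ N < pe (k + 1) 0) ⊆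
      ((Icc 1 x).filter fun N => ∃ k c, k * c = 2 * N ∧ k ^ 2 ≤ 20000 * N ∧ c ^ 2 ≤ 20000 * N) ∪
      ((range (x + 1)).filter fun N => N % 5 = a ∧ cv (fun n => f n + 1) N ≠ 0) := by
    intro N hN
    rw [mem_filter, mem_Icc] at hN
    obtain ⟨⟨hN1, hNx⟩, hN41, k, hk1, hk2⟩ := hN
    obtain ⟨hN41, hNa⟩ := hbN N hN41
    rw [mem_union]
    by_cases hex : ∃ k c, k * c = 2 * N ∧ k ^ 2 ≤ 20000 * N ∧ c ^ 2 ≤ 20000 * N
    · left
      rw [mem_filter, mem_Icc]
      exact ⟨⟨hN1, hNx⟩, hex⟩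
    · right
      rw [mem_filter, mem_range]
      refine ⟨by omega, hNa, ?_⟩
      have hE : Even (Lc S N) := by
        refine L_pair S N (by omega) (by omega) hN1 fun k c hkc hh => hex ⟨k, c, hkc, hh⟩
      rw [cv_one, gap N k hk1 hk2, cv_F N r S h.rS]
      have e1 : (Lc S N : ZMod 2) = 0 := by
        rw [ZMod.natCast_eq_zero_iff_even]
        exact hE
      have e2 : ((2 * k + 1 : ℕ) : ZMod 2) = 1 := by
        have h20 : (2 : ZMod 2) = 0 := rfl
        push_cast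
        rw [h20, zero_mul, zero_add]
      rw [e1, e2]
      decide
  have hc1 := (card_le_card hsub).trans (card_union_le _ _)
  have hc2 := few5 (fun n => f n + 1) x a T h.hT
  have hc3 : ((range (x + 1)).filter fun n => n % 5 ∈ T ∧ f n + 1 ≠ 0).card ≤
      ((Icc 1 x).filter fun k => k % 5 ∈ T ∧ (F r k : ZMod 2) = 0).card + 1 := by
    have : ((range (x + 1)).filter fun n => n % 5 ∈ T ∧ f n + 1 ≠ 0) ⊆
        insert 0 ((Icc 1 x).filter fun k => k % 5 ∈ T ∧ (F r k : ZMod 2) = 0) := by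
      intro n hn
      rw [mem_filter, mem_range, main_even5_z] at hn
      rw [mem_insert, mem_filter, mem_Icc]
      by_cases h0 : n = 0
      · exact Or.inl h0
      · exact Or.inr ⟨⟨by omega, by omega⟩, hn.2⟩
    exact (card_le_card this).trans (card_insert_le _ _)
  set u := ((Icc 1 x).filter fun k => k % 5 ∈ T ∧ (F r k : ZMod 2) = 0).card with hu
  have hc4 : ((Icc 1 x).filter fun N => N % 8405 = b ∧ ∃ k, pe k 1 ≤ N ∧ N < pe (k + 1) 0).card ≤
      ((Icc 1 x).filter fun N => ∃ k c, k * c = 2 * N ∧ k ^ 2 ≤ 20000 * N ∧ c ^ 2 ≤ 20000 * N).card +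
      (2 * Nat.sqrt x + 1) * (u + 1) := by
    refine hc1.trans (Nat.add_le_add_left (hc2.trans ?_) _)
    exact Nat.mul_le_mul_left _ hc3
  have hc5 : (((Icc 1 x).filter fun N => N % 8405 = b ∧ ∃ k, pe k 1 ≤ N ∧ N < pe (k + 1) 0).card : ℝ) ≤
      (((Icc 1 x).filter fun N => ∃ k c, k * c = 2 * N ∧ k ^ 2 ≤ 20000 * N ∧ c ^ 2 ≤ 20000 * N).card : ℝ) +
      (2 * Nat.sqrt x + 1) * (u + 1) := by
    exact_mod_cast hc4
  have hx3 : (240000 : ℝ) ^ 2 ≤ x := by exact_mod_cast h3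
  have hs : (240000 : ℝ) ≤ √x := by
    rw [show (240000 : ℝ) = √(240000 ^ 2) from (Real.sqrt_sq (by norm_num)).symm]
    exact Real.sqrt_le_sqrt hx3
  have hs2 : √(x : ℝ) * √(x : ℝ) = x := Real.mul_self_sqrt (by positivity)
  have hns : (Nat.sqrt x : ℝ) ≤ √x := Real.nat_sqrt_le_real_sqrt
  have h6 : (x : ℝ) / 40000 ≤ (2 * √x + 1) * (u + 1) := by
    have : (2 * (Nat.sqrt x : ℝ) + 1) * (u + 1) ≤ (2 * √x + 1) * (u + 1) := by gcongr
    linarith
  have h7 : (2 * √(x : ℝ) + 1) * (u + 1) ≤ (3 * √x) * (u + 1) := by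
    have : (0 : ℝ) ≤ u := Nat.cast_nonneg u
    nlinarith
  have h8 : √(x : ℝ) * (√x / 40000) ≤ √x * (3 * (u + 1)) := by nlinarith
  have h9 : √(x : ℝ) / 40000 ≤ 3 * (u + 1) := le_of_mul_le_mul_left h8 (by linarith)
  linarith
-- END main_even5

-- BEGIN main5
theorem main5 {i j r : ℤ} {S : Finset ℕ} {a : ℕ} {T : Finset ℕ} (h : Cs i j r S a T) : ∃ c : ℝ, 0 < c ∧ ∃ x₀ : ℕ, ∀ x : ℕ, x₀ ≤ x →
    c * √x ≤ (((Icc 1 x).filter fun k => k % 5 ∈ T ∧ NT i 5 k ≡ NT j 5 k [MOD 2]).card : ℝ) ∧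
    c * √x / Real.log x ≤ (((Icc 1 x).filter fun k => k % 5 ∈ T ∧ ¬ NT i 5 k ≡ NT j 5 k [MOD 2]).card : ℝ) := by
  obtain ⟨c₁, hc₁, x₁, h₁⟩ := main_odd5 h
  obtain ⟨c₂, hc₂, x₂, h₂⟩ := main_even5 h
  have hir : (i = 1 ∧ j = 4 ∧ r = 1) ∨ (i = 2 ∧ j = 3 ∧ r = 3) := by
    rcases h with ⟨h1, h2, h3, _⟩ | ⟨h1, h2, h3, _⟩ | ⟨h1, h2, h3, _⟩
    · exact Or.inl ⟨h1, h2, h3⟩
    · exact Or.inl ⟨h1, h2, h3⟩
    · exact Or.inr ⟨h1, h2, h3⟩
  refine ⟨min c₁ c₂, lt_min hc₁ hc₂, max 1 (max x₁ x₂), fun x hx => ?_⟩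
  have hx1 : 1 ≤ x := le_trans (le_max_left _ _) hx
  have hxa : x₁ ≤ x := le_trans ((le_max_left _ _).trans (le_max_right _ _)) hx
  have hxb : x₂ ≤ x := le_trans ((le_max_right _ _).trans (le_max_right _ _)) hx
  have hl : 0 ≤ Real.log x := Real.log_nonneg (by exact_mod_cast hx1)
  constructor
  · have e : (Icc 1 x).filter (fun k => k % 5 ∈ T ∧ NT i 5 k ≡ NT j 5 k [MOD 2]) =
        (Icc 1 x).filter (fun k => k % 5 ∈ T ∧ (F r k : ZMod 2) = 0) :=
      Finset.filter_congr fun k _ => and_congr_right fun _ => nt_iff k i j r hir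
    rw [e]
    refine le_trans ?_ (h₂ x hxb)
    gcongr
    exact min_le_right _ _
  · have e : (Icc 1 x).filter (fun k => k % 5 ∈ T ∧ ¬ NT i 5 k ≡ NT j 5 k [MOD 2]) =
        (Icc 1 x).filter (fun k => k % 5 ∈ T ∧ (F r k : ZMod 2) ≠ 0) :=
      Finset.filter_congr fun k _ => and_congr_right fun _ => not_congr (nt_iff k i j r hir)
    rw [e]
    refine le_trans ?_ (h₁ x hxa)
    gcongr
    exact min_le_left _ _
-- END main5

end Ntp
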