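import Pool.Agent.Ntp.Cj

/-!
# The convolution identities over the field with two elements
-/

set_option autoImplicit false

namespace Ntp

open Finset

-- BEGIN F_mu
private theorem F_mu_bd (N : ℕ) (π : N.Partition) : (rk π).natAbs ≤ N := by
  have h1 : π.parts.sup ≤ N := by
    apply Multiset.sup_le.2
    intro b hb
    have := Multiset.le_sum_of_mem hb
    rw [π.parts_sum] at this
    exact this
  have h2 : π.parts.card ≤ N := by
    have := Multiset.card_nsmul_le_sum (s := π.parts) (a := 1) (fun x hx => π.parts_pos hx)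
    rw [π.parts_sum] at this
    simpa using this
  unfold rk
  omega

private theorem F_mu_shift (a g : ℕ → ZMod 2) (ha : a 0 = 0) (n : ℕ) :
    ∑ m ∈ Icc 1 n, a m * g (m + 1) = ∑ μ ∈ Icc 1 n, a (μ - 1) * g μ + a n * g (n + 1) := by
  induction n with
  | zero => simp [ha]
  | succ n ih =>
    rw [Finset.sum_Icc_succ_top (by omega), Finset.sum_Icc_succ_top (by omega), ih]
    simp

private theorem F_mu_cnt (N : ℕ) (r : ℤ) (h : r = 1 ∨ r = 3) :
    (F r N : ZMod 2) = ∑ m ∈ Icc 1 N, (if (m : ℤ) % 10 = r ∨ (m : ℤ) % 10 = 10 - r then 1 else 0) *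
      ((univ.filter fun π : N.Partition => rk π = (m : ℤ)).card : ZMod 2) := by
  unfold F
  rw [Finset.card_eq_sum_card_fiberwise (f := fun π : N.Partition => (rk π).natAbs) (t := Icc 1 N)]
  · push_cast
    refine Finset.sum_congr rfl fun m hm => ?_
    rw [Finset.mem_Icc] at hm
    rw [Finset.filter_filter]
    by_cases h1 : (m : ℤ) % 10 = r
    · rw [if_pos (Or.inl h1), one_mul]
      congr 2
      ext π
      simp only [Finset.mem_filter, Finset.mem_univ, true_and, Int.ModEq]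
      rcases h with rfl | rfl <;> constructor <;> intro h2 <;> omega
    · by_cases h3 : (m : ℤ) % 10 = 10 - r
      · rw [if_pos (Or.inr h3), one_mul, rk_sym]
        congr 2
        ext π
        simp only [Finset.mem_filter, Finset.mem_univ, true_and, Int.ModEq]
        rcases h with rfl | rfl <;> constructor <;> intro h2 <;> omega
      · rw [if_neg (by tauto), zero_mul]
        rw [Finset.card_eq_zero.2, Nat.cast_zero]
        rw [Finset.filter_eq_empty_iff]
        intro π _ h2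
        simp only [Int.ModEq] at h2
        rcases h with rfl | rfl <;> omega
  · intro π hπ
    simp only [Finset.coe_filter, Finset.mem_univ, true_and, Set.mem_ofPred_eq, Int.ModEq] at hπ
    have hb := F_mu_bd N π
    simp only [Finset.coe_Icc, Set.mem_Icc]
    rcases h with rfl | rfl <;> omega

/-- The ranks in question are `≡ ± r` mod `10` (`rk_sym` folds the negative ones), `r = 1` or `3`; `0` does not occur. With `G_diff`
(`a = b + c` in `ZMod 2` iff `b = a + c`): `F r N = ∑ over 1 ≤ m ≤ N, m ≡ ± r mod 10, of (G N m + G N (m + 1))`, and `μ = m` resp. `μ = m + 1` runs through the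
`μ` with `μ mod 10 ∈ S1` (`r = 1`: `1, 9, 2, 0`), `S3` (`r = 3`: `3, 7, 4, 8`), each once; `G N (N + 1) = 0` by `G_zero` (ranks are `≤ N`). -/
theorem F_mu (N : ℕ) (r : ℤ) (S : Finset ℕ) (h : (r = 1 ∧ S = S1) ∨ (r = 3 ∧ S = S3)) :
    (F r N : ZMod 2) = ∑ μ ∈ Icc 1 N, if μ % 10 ∈ S then (G N (μ : ℤ) : ZMod 2) else 0 := by
  have hr : r = 1 ∨ r = 3 := by tauto
  rw [F_mu_cnt N r hr]
  have hc : ∀ m : ℕ, ((univ.filter fun π : N.Partition => rk π = (m : ℤ)).card : ZMod 2) =
      (G N (m : ℤ) : ZMod 2) + (G N ((m + 1 : ℕ) : ℤ) : ZMod 2) := by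
    intro m
    have h1 := G_diff N m
    have h2 : (G N (m : ℤ) : ZMod 2) = ((univ.filter fun π : N.Partition => rk π = (m : ℤ)).card : ZMod 2) +
        (G N ((m + 1 : ℕ) : ℤ) : ZMod 2) := by
      rw [h1]
      push_cast
      rfl
    rw [h2, add_assoc, CharTwo.add_self_eq_zero, add_zero]
  simp_rw [hc, mul_add]
  rw [Finset.sum_add_distrib]
  have h3 := F_mu_shift (fun m : ℕ => if (m : ℤ) % 10 = r ∨ (m : ℤ) % 10 = 10 - r then 1 else 0)
    (fun m : ℕ => (G N (m : ℤ) : ZMod 2)) (by rcases hr with rfl | rfl <;> simp) N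
  rw [h3]
  have h4 : G N ((N + 1 : ℕ) : ℤ) = 0 := G_zero N (N + 1) (by omega) (by omega)
  rw [h4, Nat.cast_zero, mul_zero, add_zero, ← Finset.sum_add_distrib]
  refine Finset.sum_congr rfl fun m hm => ?_
  rw [Finset.mem_Icc] at hm
  rw [← add_mul]
  have h5 : ((if (m : ℤ) % 10 = r ∨ (m : ℤ) % 10 = 10 - r then (1 : ZMod 2) else 0) +
      (if ((m - 1 : ℕ) : ℤ) % 10 = r ∨ ((m - 1 : ℕ) : ℤ) % 10 = 10 - r then 1 else 0)) =
      if m % 10 ∈ S then 1 else 0 := by
    rcases h with ⟨rfl, rfl⟩ | ⟨rfl, rfl⟩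
    · by_cases h6 : m % 10 ∈ S1
      · rw [if_pos h6]
        simp only [S1, Finset.mem_insert, Finset.mem_singleton] at h6
        by_cases h7 : m % 10 = 1 ∨ m % 10 = 9
        · rw [if_pos (by omega), if_neg (by omega), add_zero]
        · rw [if_neg (by omega), if_pos (by omega), zero_add]
      · rw [if_neg h6]
        simp only [S1, Finset.mem_insert, Finset.mem_singleton] at h6
        rw [if_neg (by omega), if_neg (by omega), add_zero]
    · by_cases h6 : m % 10 ∈ S3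
      · rw [if_pos h6]
        simp only [S3, Finset.mem_insert, Finset.mem_singleton] at h6
        by_cases h7 : m % 10 = 3 ∨ m % 10 = 7
        · rw [if_pos (by omega), if_neg (by omega), add_zero]
        · rw [if_neg (by omega), if_pos (by omega), zero_add]
      · rw [if_neg h6]
        simp only [S3, Finset.mem_insert, Finset.mem_singleton] at h6
        rw [if_neg (by omega), if_neg (by omega), add_zero]
  rw [h5]
  by_cases h6 : m % 10 ∈ S
  · rw [if_pos h6, if_pos h6, one_mul]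
  · rw [if_neg h6, if_neg h6, zero_mul]
-- END F_mu

-- BEGIN F_conv
/-- `F_mu` and `G_sum`; group the pairs `(k + 1, μ)` by `M = pe (k + 1) μ ≤ N` (then `k + 1 ≤ N` and `μ ≤ N` are automatic, also `≤ M`). -/
theorem F_conv (N : ℕ) (r : ℤ) (S : Finset ℕ) (h : (r = 1 ∧ S = S1) ∨ (r = 3 ∧ S = S3)) :
    (F r N : ZMod 2) = ∑ M ∈ range (N + 1), (Lc S M : ZMod 2) * (pp (N - M) : ZMod 2) := by
  have hge : ∀ k μ : ℕ, 1 ≤ k → k ≤ pe k μ ∧ μ ≤ pe k μ := by
    intro k μ hk
    have h1 := pe_ge k μ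
    have h2 : k ≤ k ^ 2 := Nat.le_self_pow (by norm_num) k
    refine ⟨h2.trans h1, ?_⟩
    unfold pe
    have h3 : μ ≤ k * μ := Nat.le_mul_of_pos_left μ hk
    exact h3.trans (Nat.le_add_left _ _)
  rw [F_mu N r S h]
  have h1 : ∀ μ ∈ Icc 1 N, (if μ % 10 ∈ S then (G N (μ : ℤ) : ZMod 2) else 0) =
      ∑ k ∈ Icc 1 N, if μ % 10 ∈ S ∧ pe k μ ≤ N then (pp (N - pe k μ) : ZMod 2) else 0 := by
    intro μ hμ
    rw [Finset.mem_Icc] at hμ
    by_cases h6 : μ % 10 ∈ S
    · rw [if_pos h6, G_sum N μ (Or.inl hμ.1)]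
      rw [Finset.range_eq_Ico, Finset.sum_Ico_add' (f := fun k => if pe k μ ≤ N then (pp (N - pe k μ) : ZMod 2) else 0) (c := 1)]
      refine Finset.sum_congr ?_ fun k _ => ?_
      · ext k
        simp only [Finset.mem_Ico, Finset.mem_Icc]
        omega
      · simp only [h6, true_and]
    · rw [if_neg h6]
      symm
      apply Finset.sum_eq_zero
      intro k _
      rw [if_neg (by tauto)]
  rw [Finset.sum_congr rfl h1, Finset.sum_comm, ← Finset.sum_product']
  have h2 : ∀ M ∈ range (N + 1), (Lc S M : ZMod 2) * (pp (N - M) : ZMod 2) =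
      ∑ x ∈ Icc 1 N ×ˢ Icc 1 N, if x.2 % 10 ∈ S ∧ pe x.1 x.2 = M then (pp (N - M) : ZMod 2) else 0 := by
    intro M hM
    rw [Finset.mem_range] at hM
    have h3 : Lc S M = ((Icc 1 N ×ˢ Icc 1 N).filter fun x => x.2 % 10 ∈ S ∧ pe x.1 x.2 = M).card := by
      unfold Lc
      congr 1
      ext x
      simp only [Finset.mem_filter, Finset.mem_product, Finset.mem_Icc]
      constructor
      · rintro ⟨⟨⟨a1, a2⟩, a3, a4⟩, a5, a6⟩
        exact ⟨⟨⟨a1, by omega⟩, a3, by omega⟩, a5, a6⟩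
      · rintro ⟨⟨⟨a1, a2⟩, a3, a4⟩, a5, a6⟩
        have h4 := hge x.1 x.2 a1
        exact ⟨⟨⟨a1, by omega⟩, a3, by omega⟩, a5, a6⟩
    rw [h3, ← Finset.sum_filter, Finset.sum_const, nsmul_eq_mul]
  rw [Finset.sum_congr rfl h2, Finset.sum_comm]
  refine Finset.sum_congr rfl fun x _ => ?_
  by_cases h6 : x.2 % 10 ∈ S ∧ pe x.1 x.2 ≤ N
  · rw [if_pos h6, Finset.sum_eq_single (pe x.1 x.2)]
    · rw [if_pos ⟨h6.1, rfl⟩]
    · intro M _ hM
      rw [if_neg]
      rintro ⟨_, h7⟩
      exact hM h7.symm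
    · intro h7
      exact absurd (Finset.mem_range.2 (Nat.lt_succ_of_le h6.2)) h7
  · rw [if_neg h6]
    symm
    apply Finset.sum_eq_zero
    intro M hM
    rw [Finset.mem_range] at hM
    rw [if_neg]
    rintro ⟨h7, h8⟩
    exact h6 ⟨h7, by omega⟩
-- END F_conv

-- BEGIN euler
private theorem euler_one (N r : ℕ) :
    ∑ M ∈ range (N + 1), ((((Icc 1 M).filter fun k => pe k r = M).card : ℕ) : ZMod 2) *
        (pp (N - M) : ZMod 2)
      = ∑ k ∈ range N, if pe (k + 1) r ≤ N then (pp (N - pe (k + 1) r) : ZMod 2) else 0 := by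
  have h1 : ∀ M ∈ range (N + 1),
      ((((Icc 1 M).filter fun k => pe k r = M).card : ℕ) : ZMod 2) * (pp (N - M) : ZMod 2)
        = ∑ k ∈ Icc 1 N, if pe k r = M then (pp (N - M) : ZMod 2) else 0 := by
    intro M hM
    have hM' : M ≤ N := Nat.lt_succ_iff.mp (mem_range.mp hM)
    have h2 : (Icc 1 M).filter (fun k => pe k r = M) = (Icc 1 N).filter (fun k => pe k r = M) := by
      ext k
      simp only [mem_filter, mem_Icc]
      constructor
      · rintro ⟨⟨a, b⟩, c⟩
        exact ⟨⟨a, b.trans hM'⟩, c⟩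
      · rintro ⟨⟨a, b⟩, c⟩
        have d := pe_ge k r
        rw [c] at d
        refine ⟨⟨a, ?_⟩, c⟩
        nlinarith
    rw [h2, Finset.card_filter]
    push_cast
    rw [Finset.sum_mul]
    refine Finset.sum_congr rfl fun k _ => ?_
    split_ifs <;> simp
  rw [Finset.sum_congr rfl h1, Finset.sum_comm]
  have h3 : ∀ k ∈ Icc 1 N, (∑ M ∈ range (N + 1), if pe k r = M then (pp (N - M) : ZMod 2) else 0)
      = if pe k r ≤ N then (pp (N - pe k r) : ZMod 2) else 0 := by
    intro k _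
    rw [Finset.sum_ite_eq]
    simp only [mem_range, Nat.lt_succ_iff]
  rw [Finset.sum_congr rfl h3]
  have h4 : Icc 1 N = Ico 1 (N + 1) := by
    ext k
    simp only [mem_Icc, mem_Ico]
    omega
  rw [h4, Finset.sum_Ico_eq_sum_range]
  refine Finset.sum_congr (by simp) fun k _ => ?_
  rw [Nat.add_comm 1 k]

/-- `G_one` and `G_sum` for `r = 0`, `r = 1` (`N ≥ 1`); group the `k` by the values `M = pe (k + 1) 0`, `pe (k + 1) 1`; the term `M = 0` is `pp N`. -/
theorem euler (N : ℕ) (hN : 1 ≤ N) :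
    ∑ M ∈ range (N + 1), (ee M : ZMod 2) * (pp (N - M) : ZMod 2) = 0 := by
  have h0 : ∑ M ∈ range (N + 1), (((if M = 0 then 1 else 0 : ℕ)) : ZMod 2) * (pp (N - M) : ZMod 2)
      = (pp N : ZMod 2) := by
    rw [Finset.sum_eq_single 0]
    · simp
    · intro b _ hb
      simp [hb]
    · intro h
      exact absurd (mem_range.mpr (Nat.succ_pos N)) h
  have h1 : ∑ M ∈ range (N + 1), (ee M : ZMod 2) * (pp (N - M) : ZMod 2)
      = (pp N : ZMod 2) + (G N (0 : ℕ) : ZMod 2) + (G N (1 : ℕ) : ZMod 2) := by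
    rw [G_sum N 0 (Or.inr hN), G_sum N 1 (Or.inr hN), ← euler_one N 0, ← euler_one N 1, ← h0,
      ← Finset.sum_add_distrib, ← Finset.sum_add_distrib]
    refine Finset.sum_congr rfl fun M _ => ?_
    rw [ee]
    push_cast
    ring
  have h2 : (pp N : ZMod 2) = (G N (0 : ℕ) : ZMod 2) + (G N (1 : ℕ) : ZMod 2) := by
    have h3 := G_one N
    have h4 : (pp N : ZMod 2) = ((G N 0 + G N 1 : ℕ) : ZMod 2) := by rw [← h3]
    rw [h4]
    push_cast
    rfl
  rw [h1, add_assoc, ← h2]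
  exact CharTwo.add_self_eq_zero _
-- END euler

-- BEGIN cv_conv
/-- If `f = L * pp` then `ee * f = L`, since `ee * pp = 1` (`euler`; for `N = 0` it is `1`). E.g. with `PowerSeries (ZMod 2)` (`PowerSeries.coeff_mul`,
`Finset.Nat.sum_antidiagonal_eq_sum_range_succ`), or by exchanging the sums. -/
theorem cv_conv (f g : ℕ → ZMod 2) (h : ∀ N, f N = ∑ M ∈ range (N + 1), g M * (pp (N - M) : ZMod 2)) (N : ℕ) :
    cv f N = g N := by
  have hco : ∀ (u v : ℕ → ZMod 2) (n : ℕ), PowerSeries.coeff n (PowerSeries.mk u * PowerSeries.mk v) =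
      ∑ M ∈ range (n + 1), u M * v (n - M) := by
    intro u v n
    rw [PowerSeries.coeff_mul, Finset.Nat.sum_antidiagonal_eq_sum_range_succ
      (fun i j => PowerSeries.coeff i (PowerSeries.mk u) * PowerSeries.coeff j (PowerSeries.mk v))]
    simp only [PowerSeries.coeff_mk]
  have hF : PowerSeries.mk f = PowerSeries.mk g * PowerSeries.mk (fun n => (pp n : ZMod 2)) := by
    ext n
    rw [hco, PowerSeries.coeff_mk, h n]
  have hE : PowerSeries.mk (fun n => (ee n : ZMod 2)) * PowerSeries.mk (fun n => (pp n : ZMod 2)) = 1 := by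
    ext n
    rw [hco, PowerSeries.coeff_one]
    rcases Nat.eq_zero_or_pos n with rfl | hn
    · have h1 : pp 0 = 1 := by
        unfold pp
        exact Fintype.card_unique
      have h2 : ee 0 = 1 := by
        unfold ee
        simp
      simp [h1, h2]
    · rw [euler n hn, if_neg (by omega)]
  have h3 : cv f N = PowerSeries.coeff N (PowerSeries.mk (fun n => (ee n : ZMod 2)) * PowerSeries.mk f) := by
    rw [hco]
    rfl
  rw [h3, hF, mul_left_comm, hE, mul_one, PowerSeries.coeff_mk]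
-- END cv_conv

-- BEGIN cv_F
/-- `F_conv`, `cv_conv`. -/
theorem cv_F (N : ℕ) (r : ℤ) (S : Finset ℕ) (h : (r = 1 ∧ S = S1) ∨ (r = 3 ∧ S = S3)) :
    cv (fun n => (F r n : ZMod 2)) N = (Lc S N : ZMod 2) :=
  cv_conv (fun n => (F r n : ZMod 2)) (fun n => (Lc S n : ZMod 2)) (fun n => F_conv n r S h) N
-- END cv_F

-- BEGIN cv_one
/-- `cv` is additive in `f`. -/
theorem cv_one (f : ℕ → ZMod 2) (N : ℕ) : cv (fun n => f n + 1) N = cv f N + ((∑ M ∈ range (N + 1), ee M : ℕ) : ZMod 2) := by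
  unfold cv
  rw [Nat.cast_sum, ← Finset.sum_add_distrib]
  refine Finset.sum_congr rfl fun M _ => ?_
  rw [mul_add, mul_one]
-- END cv_one

-- BEGIN gap
private theorem gap_mono (c i j : ℕ) (hij : i ≤ j) : pe i c ≤ pe j c := by
  unfold pe
  exact Nat.add_le_add (Nat.div_le_div_right (Nat.mul_le_mul hij (by omega)))
    (Nat.mul_le_mul_right c hij)

private theorem gap_sum (c N k : ℕ) (h1 : ∀ i, i ≤ k → pe i c ≤ N) (h2 : ∀ i, k < i → N < pe i c) :
    ∑ M ∈ range (N + 1), ((Icc 1 M).filter fun i => pe i c = M).card = k := by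
  have hmaps : ∀ i ∈ Icc 1 k, pe i c ∈ range (N + 1) := by
    intro i hi
    rw [mem_range]
    have := h1 i (mem_Icc.1 hi).2
    omega
  have h := Finset.card_eq_sum_card_fiberwise hmaps
  rw [Nat.card_Icc, Nat.add_sub_cancel] at h
  rw [h]
  refine Finset.sum_congr rfl fun M hM => ?_
  congr 1
  ext i
  rw [mem_filter, mem_filter, mem_Icc, mem_Icc]
  rw [mem_range] at hM
  constructor
  · rintro ⟨⟨h3, h4⟩, h5⟩
    refine ⟨⟨h3, ?_⟩, h5⟩
    by_contra hlt
    have := h2 i (not_le.1 hlt)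
    omega
  · rintro ⟨⟨h3, h4⟩, h5⟩
    refine ⟨⟨h3, ?_⟩, h5⟩
    have h6 := pe_ge i c
    have h7 : i ≤ i ^ 2 := Nat.le_self_pow (by norm_num) i
    omega

/-- `pe i 0 < pe i 1 < pe (i + 1) 0` for `i ≥ 1`; the `M ≤ N` with `ee M ≥ 1` are `0`, `pe i 0`, `pe i 1`, `1 ≤ i ≤ k`, when
`pe k 1 ≤ N < pe (k + 1) 0`. (Exchange the sums: the number of `i ≥ 1` with `pe i 0 ≤ N` is `k`, the number with `pe i 1 ≤ N` is `k`.) -/
theorem gap (N k : ℕ) (h1 : pe k 1 ≤ N) (h2 : N < pe (k + 1) 0) : ∑ M ∈ range (N + 1), ee M = 2 * k + 1 := by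
  have h01 : ∀ i, pe i 0 ≤ pe i 1 := by
    intro i
    unfold pe
    omega
  have e1 : ∑ M ∈ range (N + 1), ((Icc 1 M).filter fun i => pe i 0 = M).card = k :=
    gap_sum 0 N k (fun i hi => (gap_mono 0 i k hi).trans ((h01 k).trans h1))
      (fun i hi => h2.trans_le (gap_mono 0 (k + 1) i hi))
  have e2 : ∑ M ∈ range (N + 1), ((Icc 1 M).filter fun i => pe i 1 = M).card = k :=
    gap_sum 1 N k (fun i hi => (gap_mono 1 i k hi).trans h1)
      (fun i hi => h2.trans_le ((h01 (k + 1)).trans (gap_mono 1 (k + 1) i hi)))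
  have e0 : ∑ M ∈ range (N + 1), (if M = 0 then 1 else 0) = 1 := by
    rw [Finset.sum_ite_eq' (range (N + 1)) 0 (fun _ => 1), if_pos (mem_range.2 (Nat.succ_pos N))]
  unfold ee
  rw [Finset.sum_add_distrib, Finset.sum_add_distrib, e0, e1, e2]
  ring
-- END gap

-- BEGIN ee_card
/-- `ee M ≠ 0` implies `M = 0` or `M = pe k 0` or `M = pe k 1` with `1 ≤ k`, `k ^ 2 ≤ M ≤ X` (`pe_ge`). -/
theorem ee_card (X : ℕ) : ((range (X + 1)).filter fun M => (ee M : ZMod 2) ≠ 0).card ≤ 2 * Nat.sqrt X + 1 := by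
  have hsub : ((range (X + 1)).filter fun M => (ee M : ZMod 2) ≠ 0) ⊆
      ({0} ∪ (Icc 1 (Nat.sqrt X)).image (fun k => pe k 0)) ∪
        (Icc 1 (Nat.sqrt X)).image (fun k => pe k 1) := by
    intro M hM
    rw [mem_filter, mem_range] at hM
    obtain ⟨hMX, hne⟩ := hM
    have hee : ee M ≠ 0 := by
      intro h
      rw [h, Nat.cast_zero] at hne
      exact hne rfl
    have hk : ∀ c k, pe k c = M → k ≤ Nat.sqrt X := by
      intro c k h
      have := pe_ge k c
      rw [Nat.le_sqrt']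
      omega
    rw [mem_union, mem_union, mem_singleton]
    by_cases h0 : M = 0
    · exact Or.inl (Or.inl h0)
    by_cases h1 : ((Icc 1 M).filter fun k => pe k 0 = M).Nonempty
    · obtain ⟨k, hk1⟩ := h1
      rw [mem_filter, mem_Icc] at hk1
      exact Or.inl (Or.inr (mem_image.2 ⟨k, mem_Icc.2 ⟨hk1.1.1, hk 0 k hk1.2⟩, hk1.2⟩))
    by_cases h2 : ((Icc 1 M).filter fun k => pe k 1 = M).Nonempty
    · obtain ⟨k, hk1⟩ := h2
      rw [mem_filter, mem_Icc] at hk1
      exact Or.inr (mem_image.2 ⟨k, mem_Icc.2 ⟨hk1.1.1, hk 1 k hk1.2⟩, hk1.2⟩)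
    · exfalso
      rw [not_nonempty_iff_eq_empty] at h1 h2
      apply hee
      unfold ee
      rw [if_neg h0, h1, h2, card_empty]
  refine (card_le_card hsub).trans ((card_union_le _ _).trans ?_)
  have h1 : (({0} : Finset ℕ) ∪ (Icc 1 (Nat.sqrt X)).image (fun k => pe k 0)).card ≤
      1 + Nat.sqrt X := by
    refine (card_union_le _ _).trans ?_
    rw [card_singleton]
    have := (card_image_le (s := Icc 1 (Nat.sqrt X)) (f := fun k => pe k 0))
    rw [Nat.card_Icc, Nat.add_sub_cancel] at this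
    omega
  have h2 := (card_image_le (s := Icc 1 (Nat.sqrt X)) (f := fun k => pe k 1))
  rw [Nat.card_Icc, Nat.add_sub_cancel] at h2
  omega
-- END ee_card

-- BEGIN few
/-- If `cv f N ≠ 0`, `N ≤ X`, then some `M ≤ N` has `ee M ≠ 0` and `f (N - M) ≠ 0`: map the `N` to `(M, N - M)`, injective; `ee_card`. -/
theorem few (f : ℕ → ZMod 2) (X : ℕ) : ((range (X + 1)).filter fun N => cv f N ≠ 0).card ≤
    (2 * Nat.sqrt X + 1) * ((range (X + 1)).filter fun n => f n ≠ 0).card := by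
  have hsub : ((range (X + 1)).filter fun N => cv f N ≠ 0) ⊆
      (((range (X + 1)).filter fun M => (ee M : ZMod 2) ≠ 0) ×ˢ
        ((range (X + 1)).filter fun n => f n ≠ 0)).image (fun x => x.1 + x.2) := by
    intro N hN
    rw [mem_filter, mem_range] at hN
    obtain ⟨hNX, hne⟩ := hN
    unfold cv at hne
    obtain ⟨M, hM, hMne⟩ := Finset.exists_ne_zero_of_sum_ne_zero hne
    rw [mem_range] at hM
    have h1 : (ee M : ZMod 2) ≠ 0 := left_ne_zero_of_mul hMne
    have h2 : f (N - M) ≠ 0 := right_ne_zero_of_mul hMne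
    rw [mem_image]
    refine ⟨(M, N - M), ?_, ?_⟩
    · rw [mem_product, mem_filter, mem_filter, mem_range, mem_range]
      exact ⟨⟨by omega, h1⟩, ⟨by omega, h2⟩⟩
    · show M + (N - M) = N
      omega
  refine (card_le_card hsub).trans (card_image_le.trans ?_)
  rw [card_product]
  exact Nat.mul_le_mul_right _ (ee_card X)
-- END few

end Ntp
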